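import Pool.Agent.Helper94.FAP.Core

open Set Cardinal

universe u v

namespace FAP

section

variable {A B : Type u} [LinearOrder A] [LinearOrder B]

/-- Countable subsets of a well-order of type `ω₁` are bounded. -/
theorem ctbl_bdd' (cardA : #A = ℵ_ 1) (ctA : ∀ a : A, (Iio a).Countable) (c : Set A)
    (hc : c.Countable) : ∃ a, ∀ y ∈ c, y < a := by
  by_contra hcon
  push Not at hcon
  have h1 : (Set.univ : Set A).Countable := by
    have h2 : (⋃ y ∈ c, Iic y).Countable := by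
      refine hc.biUnion ?_
      intro y _
      have : Iic y = insert y (Iio y) := by
        ext z; simp [le_iff_lt_or_eq, or_comm]
      rw [this]
      exact (ctA y).insert y
    refine h2.mono ?_
    intro a _
    obtain ⟨y, hy, hay⟩ := hcon a
    exact mem_biUnion hy hay
  have h3 : #A ≤ ℵ₀ := by
    rw [← mk_univ]
    exact h1.le_aleph0
  rw [cardA] at h3
  have : ℵ₀ < ℵ_ 1 := by
    rw [← aleph_zero]
    exact aleph_lt_aleph.2 zero_lt_one
  exact absurd h3 (not_le.2 this)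

theorem ctbl_bdd (T : Setup A B) (c : Set A) (hc : c.Countable) : ∃ a, ∀ y ∈ c, y < a :=
  ctbl_bdd' T.cardA T.ctA c hc

/-- Countable subsets of a well-order embed below a point of `A`. -/
theorem exists_small' (wfB : WellFoundedLT B) (hA : ∀ c : Set A, c.Countable → ∃ a, ∀ y ∈ c, y < a)
    (M : Set B) (hM : M.Countable) : ∃ ξ : A, Small M ξ := by
  classical
  have hstep : ∀ c : Set A, ∃ a, c.Countable → ∀ y ∈ c, y < a := by
    intro c
    by_cases hc : c.Countable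
    · obtain ⟨a, ha⟩ := hA c hc
      exact ⟨a, fun _ => ha⟩
    · obtain ⟨a, -⟩ := hA ∅ countable_empty
      exact ⟨a, fun h => absurd h hc⟩
  choose F hF using hstep
  let φ : B → A := wfB.wf.fix (fun b ih => F {a | ∃ (b' : B) (h : b' < b), b' ∈ M ∧ ih b' h = a})
  have hφ : ∀ b, φ b = F {a | ∃ b', b' < b ∧ b' ∈ M ∧ φ b' = a} := by
    intro b
    have := wfB.wf.fix_eq (fun b ih => F {a | ∃ (b' : B) (h : b' < b), b' ∈ M ∧ ih b' h = a}) b
    refine this.trans ?_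
    congr 1
    ext a
    simp only [mem_ofPred_eq]
    constructor
    · rintro ⟨b', h, hb', rfl⟩
      exact ⟨b', h, hb', rfl⟩
    · rintro ⟨b', h, hb', rfl⟩
      exact ⟨b', h, hb', rfl⟩
  have hmono : ∀ z ∈ M, ∀ z' ∈ M, z < z' → φ z < φ z' := by
    intro z hz z' hz' hlt
    rw [hφ z']
    apply hF
    · refine (hM.image φ).mono ?_
      rintro a ⟨b', -, hb', rfl⟩
      exact ⟨b', hb', rfl⟩
    · exact ⟨z, hlt, hz, rfl⟩
  obtain ⟨ξ, hξ⟩ := hA (φ '' M) (hM.image φ)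
  exact ⟨ξ, φ, fun z hz => hξ _ ⟨z, hz, rfl⟩, hmono⟩

theorem exists_small (T : Setup A B) (M : Set B) (hM : M.Countable) : ∃ ξ : A, Small M ξ :=
  exists_small' T.wfB (ctbl_bdd T) M hM

theorem Small.mono_set {Z Z' : Set B} {ξ : A} (h : Small Z ξ) (hZ : Z' ⊆ Z) :
    Small Z' ξ := by
  obtain ⟨φ, h1, h2⟩ := h
  exact ⟨φ, fun z hz => h1 z (hZ hz), fun z hz z' hz' => h2 z (hZ hz) z' (hZ hz')⟩

theorem Small.mono {Z : Set B} {ξ ξ' : A} (h : Small Z ξ) (hξ : ξ ≤ ξ') : Small Z ξ' := by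
  obtain ⟨φ, h1, h2⟩ := h
  exact ⟨φ, fun z hz => (h1 z hz).trans_le hξ, h2⟩

/-- For `δ` in a suitable set `M` which is small below `ξ`, the order type `f δ η` is below `ξ`. -/
theorem small_f_lt (T : Setup A B) {η ξ : A} {M : Set B} (hM : Suitable T.e η M) (hs : Small M ξ)
    {δ : B} (hδ : δ ∈ M) : T.f δ η < ξ := by
  obtain ⟨φ, h1, h2⟩ := hs
  refine lt_of_le_of_lt (T.f_le δ η (φ δ) ?_) (h1 δ hδ)
  refine ⟨φ, ?_, ?_⟩
  · intro z hz
    have := (hM.2 δ hδ z).2 hz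
    exact h2 z this.1 δ hδ this.2
  · intro z hz z' hz' hlt
    exact h2 z ((hM.2 δ hδ z).2 hz).1 z' ((hM.2 δ hδ z').2 hz').1 hlt

theorem f_lt_f (T : Setup A B) {η : A} {M : Set B} (hM : Suitable T.e η M)
    {δ δ' : B} (hδ : δ ∈ M) (hδ' : δ' ∈ M) (h : δ < δ') : T.f δ η < T.f δ' η := by
  obtain ⟨φ, h1, h2⟩ := T.f_small δ' η
  have hδR : δ ∈ RR T.e δ' η := (hM.2 δ' hδ' δ).1 ⟨hδ, h⟩
  refine lt_of_le_of_lt (T.f_le δ η (φ δ) ?_) (h1 δ hδR)
  have hsub : ∀ z ∈ RR T.e δ η, z ∈ RR T.e δ' η ∧ z < δ := by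
    intro z hz
    have := (hM.2 δ hδ z).2 hz
    exact ⟨(hM.2 δ' hδ' z).1 ⟨this.1, this.2.trans h⟩, this.2⟩
  refine ⟨φ, ?_, ?_⟩
  · intro z hz
    exact h2 z (hsub z hz).1 δ hδR (hsub z hz).2
  · intro z hz z' hz' hlt
    exact h2 z (hsub z hz).1 z' (hsub z' hz').1 hlt

end

end FAP
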