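import Pool.Agent.Helper94.FAP.Defs

/-!
# FAP core: definitions for the failure of the forcing axiom for proper aleph-2-c.c. posets

The forcing axiom and the poset used in the proof.
-/

open Set Cardinal

universe u v

namespace FAP

section Forcing

variable {P : Type u} [PartialOrder P]

variable (P) in
/-- Properness, through clubs of countable subsets. -/
def ClubProper : Prop :=
  ∀ (X : Type v) (i : P → X) (j : Set P → X), Function.Injective i → Function.Injective j →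
    ∃ C : Set (Set X), IsClubCtbl C ∧ ∀ M ∈ C, HasGeneric i j M

end Forcing

/-- The forcing axiom for aleph-2 many dense sets and proper aleph-2-c.c. posets, in universe `u`. -/
def FA : Prop :=
  ∀ (P : Type u) [PartialOrder P], Nonempty P → IsProper.{u, v} P → Aleph2CC P →
    ∀ (ι : Type u) (D : ι → Set P), #ι ≤ ℵ_ 2 → (∀ k, IsDense (D k)) →
      ∃ G : Set P, IsFilter G ∧ ∀ k, (G ∩ D k).Nonempty

section Combinatorics

variable {A B : Type u} [LinearOrder A] [LinearOrder B]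

variable (B) in
/-- The points `δ` such that every countable set of points below `δ` is bounded (weakly) by a point
below `δ`. -/
def SS : Set B := {δ | ∀ c : Set B, c.Countable → (∀ y ∈ c, y < δ) → ∃ β < δ, ∀ y ∈ c, y ≤ β}

/-- The first `η` values of `e γ ·`, as far as they are below `γ`. -/
def RR (e : B → A → B) (γ : B) (η : A) : Set B := {β | β < γ ∧ ∃ ξ < η, e γ ξ = β}

/-- `M` is a countable set which looks like the trace of a countable model of height `η`. -/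
def Suitable (e : B → A → B) (η : A) (M : Set B) : Prop :=
  M.Countable ∧ ∀ γ ∈ M, ∀ β, (β ∈ M ∧ β < γ) ↔ β ∈ RR e γ η

/-- `Z` embeds strictly monotonically below `ξ`. -/
def Small (Z : Set B) (ξ : A) : Prop :=
  ∃ φ : B → A, (∀ z ∈ Z, φ z < ξ) ∧ ∀ z ∈ Z, ∀ z' ∈ Z, z < z' → φ z < φ z'

/-- Closed unbounded subsets of `A`. -/
structure ClubA (E : Set A) : Prop where
  unb : ∀ a : A, ∃ b ∈ E, a < b
  closed : ∀ η : A, (∃ a, a < η) → (∀ a < η, ∃ b ∈ E, a < b ∧ b < η) → η ∈ E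

end Combinatorics

/-- The combinatorial data: well-orders `A` of type `ω₁` and `B` of type `ω₂`, surjections `e γ` from
`A` onto the predecessors of `γ`, bounds `x δ η` of `RR e δ η` below `δ`, and the order type `f δ η`
of `RR e δ η`. -/
structure Setup (A B : Type u) [LinearOrder A] [LinearOrder B] where
  wfA : WellFoundedLT A
  wfB : WellFoundedLT B
  cardA : #A = ℵ_ 1
  ctA : ∀ a : A, (Iio a).Countable
  cardB : #B = ℵ_ 2
  leB : ∀ b : B, #(Iio b) ≤ ℵ_ 1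
  e : B → A → B
  e_surj : ∀ γ β : B, β < γ → ∃ ξ, e γ ξ = β
  x : B → A → B
  x_lt : ∀ δ ∈ SS B, ∀ η, x δ η < δ
  x_ge : ∀ δ ∈ SS B, ∀ η, ∀ β ∈ RR e δ η, β ≤ x δ η
  f : B → A → A
  f_small : ∀ δ η, Small (RR e δ η) (f δ η)
  f_le : ∀ δ η a, Small (RR e δ η) a → f δ η ≤ a

section Poset

variable {A B : Type u} [LinearOrder A] [LinearOrder B]

variable (A B) in
/-- Raw conditions: five finite sets. -/
@[ext] structure Pre where
  g : Finset (A × A)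
  h : Finset (B × A × Bool)
  In : Finset (B × A)
  Out : Finset (B × A × A)
  Mod : Finset (A × Set B)

/-- Extension of raw conditions. -/
instance : PartialOrder (Pre A B) where
  le p q := q.g ⊆ p.g ∧ q.h ⊆ p.h ∧ q.In ⊆ p.In ∧ q.Out ⊆ p.Out ∧ q.Mod ⊆ p.Mod
  le_refl p := ⟨subset_rfl, subset_rfl, subset_rfl, subset_rfl, subset_rfl⟩
  le_trans p q r hpq hqr := ⟨hqr.1.trans hpq.1, hqr.2.1.trans hpq.2.1, hqr.2.2.1.trans hpq.2.2.1,
    hqr.2.2.2.1.trans hpq.2.2.2.1, hqr.2.2.2.2.trans hpq.2.2.2.2⟩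
  le_antisymm p q hpq hqp := Pre.ext (hqp.1.antisymm hpq.1) (hqp.2.1.antisymm hpq.2.1)
    (hqp.2.2.1.antisymm hpq.2.2.1) (hqp.2.2.2.1.antisymm hpq.2.2.2.1)
    (hqp.2.2.2.2.antisymm hpq.2.2.2.2)

omit [LinearOrder A] [LinearOrder B] in
theorem Pre.le_def {p q : Pre A B} :
    p ≤ q ↔ q.g ⊆ p.g ∧ q.h ⊆ p.h ∧ q.In ⊆ p.In ∧ q.Out ⊆ p.Out ∧ q.Mod ⊆ p.Mod := Iff.rfl

open Classical in
/-- Union of raw conditions. -/
noncomputable def Pre.un (p q : Pre A B) : Pre A B where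
  g := p.g ∪ q.g
  h := p.h ∪ q.h
  In := p.In ∪ q.In
  Out := p.Out ∪ q.Out
  Mod := p.Mod ∪ q.Mod

@[simp] theorem Pre.mem_un_g {p q : Pre A B} {y} : y ∈ (p.un q).g ↔ y ∈ p.g ∨ y ∈ q.g := by
  simp [Pre.un]
@[simp] theorem Pre.mem_un_h {p q : Pre A B} {y} : y ∈ (p.un q).h ↔ y ∈ p.h ∨ y ∈ q.h := by
  simp [Pre.un]
@[simp] theorem Pre.mem_un_In {p q : Pre A B} {y} : y ∈ (p.un q).In ↔ y ∈ p.In ∨ y ∈ q.In := by
  simp [Pre.un]
@[simp] theorem Pre.mem_un_Out {p q : Pre A B} {y} :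
    y ∈ (p.un q).Out ↔ y ∈ p.Out ∨ y ∈ q.Out := by
  simp [Pre.un]
@[simp] theorem Pre.mem_un_Mod {p q : Pre A B} {y} :
    y ∈ (p.un q).Mod ↔ y ∈ p.Mod ∨ y ∈ q.Mod := by
  simp [Pre.un]

theorem Pre.un_le_left (p q : Pre A B) : p.un q ≤ p := by
  refine ⟨?_, ?_, ?_, ?_, ?_⟩ <;> intro y hy <;> simp [hy]

theorem Pre.un_le_right (p q : Pre A B) : p.un q ≤ q := by
  refine ⟨?_, ?_, ?_, ?_, ?_⟩ <;> intro y hy <;> simp [hy]

/-- The requirements on a condition. -/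
structure Valid (T : Setup A B) (Act : B → A → Prop) (bit : B → Bool) (p : Pre A B) : Prop where
  c0g : ∀ η ξ ξ', (η, ξ) ∈ p.g → (η, ξ') ∈ p.g → ξ = ξ'
  c0h : ∀ α η i i', (α, η, i) ∈ p.h → (α, η, i') ∈ p.h → i = i'
  c1S : ∀ δ η, (δ, η) ∈ p.In → δ ∈ SS B
  c1g : ∀ δ η, (δ, η) ∈ p.In → ∃ ξ, (η, ξ) ∈ p.g ∧ T.f δ η < ξ
  c1h : ∀ δ η, (δ, η) ∈ p.In → Act δ η → (T.x δ η, η, bit δ) ∈ p.h
  c2 : ∀ δ η a b, (δ, η) ∈ p.In → (δ, a, b) ∈ p.Out → a < η → η ≤ b → False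
  c3 : ∀ η M δ a b, (η, M) ∈ p.Mod → δ ∈ M → (δ, a, b) ∈ p.Out → a < η → η ≤ b → False
  c4s : ∀ η M, (η, M) ∈ p.Mod → Suitable T.e η M
  c4g : ∀ η M, (η, M) ∈ p.Mod → ∃ ξ, (η, ξ) ∈ p.g ∧ Small M ξ
  c4h : ∀ η M, (η, M) ∈ p.Mod → ∀ δ ∈ M, δ ∈ SS B → Act δ η → (T.x δ η, η, bit δ) ∈ p.h
  c5 : ∀ η ξ ζ ξ', (η, ξ) ∈ p.g → (ζ, ξ') ∈ p.g → η < ζ → ξ < ζ

/-- The poset. -/
def Pos (T : Setup A B) (Act : B → A → Prop) (bit : B → Bool) : Type u :=
  {p : Pre A B // Valid T Act bit p}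

instance (T : Setup A B) (Act : B → A → Prop) (bit : B → Bool) : PartialOrder (Pos T Act bit) :=
  inferInstanceAs (PartialOrder {p : Pre A B // Valid T Act bit p})

/-- The hypothesis on `Act` under which the poset is proper. -/
def ActOK (T : Setup A B) (Act : B → A → Prop) : Prop :=
  ∃ E : B → Set A, (∀ δ ∈ SS B, ClubA (E δ)) ∧
    ∀ (η : A) (M : Set B), Suitable T.e η M → (∀ δ ∈ M, δ ∈ SS B → η ∈ E δ) →
      {δ | δ ∈ M ∧ δ ∈ SS B ∧ Act δ η}.Finite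

/-- The raw condition `p` lies below the point `κ` and over the set `M`. -/
structure Below (κ : A) (M : Set B) (p : Pre A B) : Prop where
  g : ∀ η ξ, (η, ξ) ∈ p.g → η < κ ∧ ξ < κ
  h : ∀ α η i, (α, η, i) ∈ p.h → α ∈ M ∧ η < κ
  In : ∀ δ η, (δ, η) ∈ p.In → δ ∈ M ∧ η < κ
  Out : ∀ δ a b, (δ, a, b) ∈ p.Out → δ ∈ M ∧ a < κ ∧ b < κ
  Mod : ∀ η N, (η, N) ∈ p.Mod → η < κ ∧ N ⊆ M

/-- The closure properties of the trace `(M, κ, N)` of a countable closed set which are used in the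
proof of properness. The functions `nx`, `rr`, `WW`, `lam` are arbitrary. -/
structure Trace (T : Setup A B) (Act : B → A → Prop) (bit : B → Bool) {X : Type v}
    (i : Pos T Act bit → X) (j : Set (Pos T Act bit) → X) (nx : B → A → A)
    (rr : Set (Pos T Act bit) → Pos T Act bit → A → A → Pos T Act bit)
    (WW : Set (Pos T Act bit) → Pos T Act bit → A → Set B)
    (lam : ℕ → ℕ → A → A) (M : Set X) (κ : A) (N : Set B) : Prop where
  suit : Suitable T.e κ N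
  pos : ∃ a, a < κ
  clnx : ∀ δ ∈ N, ∀ a < κ, nx δ a < κ
  clx : ∀ δ ∈ N, ∀ η < κ, T.x δ η ∈ N
  below : ∀ p : Pos T Act bit, i p ∈ M → Below κ N p.1
  build : ∀ q : Pos T Act bit, Below κ N q.1 →
    (∀ y ∈ q.1.Mod, ∃ p : Pos T Act bit, i p ∈ M ∧ y ∈ p.1.Mod) → i q ∈ M
  clr : ∀ D s ρ ζ, j D ∈ M → i s ∈ M → ρ < κ → ζ < κ → i (rr D s ρ ζ) ∈ M
  clW : ∀ D s ρ, j D ∈ M → i s ∈ M → ρ < κ → WW D s ρ ⊆ N
  cllam : ∀ k m ξ, ξ < κ → lam k m ξ < κ

/-- The first family of dense sets. -/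
def D1 (T : Setup A B) (Act : B → A → Prop) (bit : B → Bool) (δ : B) (η : A) :
    Set (Pos T Act bit) :=
  {p | (δ, η) ∈ p.1.In ∨ ∃ a b, (δ, a, b) ∈ p.1.Out ∧ a < η ∧ η ≤ b}

/-- The second family of dense sets. -/
def D2 (T : Setup A B) (Act : B → A → Prop) (bit : B → Bool) (δ : B) (ξ : A) :
    Set (Pos T Act bit) :=
  {p | ∃ η, ξ < η ∧ (δ, η) ∈ p.1.In}

end Poset

end FAP
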