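import Mathlib

/-!
# Forcing terminology

Compatibility, density, filters, the aleph-2 chain condition, clubs of countable sets and properness.
-/

open Set Cardinal

universe u v

namespace FAP

section Forcing

variable {P : Type u} [PartialOrder P]

/-- Two conditions are compatible when they have a common extension. -/
def Compat (p q : P) : Prop := ∃ r : P, r ≤ p ∧ r ≤ q

/-- Dense subsets of a poset. -/
def IsDense (D : Set P) : Prop := ∀ p : P, ∃ d ∈ D, d ≤ p

/-- Filters: nonempty, upward closed, any two elements have a common extension in the filter. -/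
structure IsFilter (G : Set P) : Prop where
  nonempty : G.Nonempty
  up : ∀ p ∈ G, ∀ q : P, p ≤ q → q ∈ G
  dir : ∀ p ∈ G, ∀ q ∈ G, ∃ r ∈ G, r ≤ p ∧ r ≤ q

variable (P) in
/-- The aleph-2 chain condition: every antichain has cardinality at most aleph-1. -/
def Aleph2CC : Prop :=
  ∀ W : Set P, (∀ p ∈ W, ∀ q ∈ W, p ≠ q → ¬ Compat p q) → #W ≤ ℵ_ 1

/-- `C` is a club of countable subsets of `X`: all its members are countable, every countable
subset of `X` is contained in a member, and the union of an increasing sequence of members
is a member. -/
structure IsClubCtbl {X : Type v} (C : Set (Set X)) : Prop where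
  ctbl : ∀ M ∈ C, M.Countable
  cofinal : ∀ N : Set X, N.Countable → ∃ M ∈ C, N ⊆ M
  closed : ∀ c : ℕ → Set X, Monotone c → (∀ n, c n ∈ C) → (⋃ n, c n) ∈ C

/-- `M ⊆ X` has `(M, P)`-generic extensions, where `P` and its power set are embedded in `X` by `i`
and `j`: every condition `p` in `M` has an extension `q` such that for every dense `D` in `M`, the
set `D ∩ M` is predense below `q`. -/
def HasGeneric {X : Type v} (i : P → X) (j : Set P → X) (M : Set X) : Prop :=
  ∀ p : P, i p ∈ M → ∃ q : P, q ≤ p ∧ ∀ D : Set P, IsDense D → j D ∈ M →
    ∀ r : P, r ≤ q → ∃ s ∈ D, i s ∈ M ∧ Compat s r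

variable (P) in
/-- Properness: whenever `X` is a structure for a countable first-order language in which `P` and
its power set are embedded and `a` is an element of `X` (for instance `X = (H(θ), ∈)` and `a` the
poset `P`), there is a club of countable elementary submodels `M ≺ X` containing `a` such that
every condition `p` in `M` has an `(M, P)`-generic extension `q`. -/
def IsProper : Prop :=
  ∀ (X : Type v) (L : FirstOrder.Language.{0, 0}) [Countable L.Symbols] [L.Structure X] (a : X)
    (i : P → X) (j : Set P → X), Function.Injective i → Function.Injective j →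
    ∃ C : Set (Set X), IsClubCtbl C ∧ ∀ M ∈ C,
      (∃ S : L.ElementarySubstructure X, (S : Set X) = M) ∧ a ∈ M ∧ HasGeneric i j M

end Forcing

end FAP
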