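import Pool.Agent.Helper94.FAP.Core

open Set Cardinal FirstOrder FirstOrder.Language

universe u v w

namespace FAP

/-- The intersection of two clubs is a club. -/
theorem IsClubCtbl.inter {X : Type v} {C C' : Set (Set X)} (h : IsClubCtbl C)
    (h' : IsClubCtbl C') : IsClubCtbl (C ∩ C') := by
  classical
  refine ⟨fun M hM => h.ctbl M hM.1, ?_, fun c hc hcC =>
    ⟨h.closed c hc (fun n => (hcC n).1), h'.closed c hc (fun n => (hcC n).2)⟩⟩
  intro N hN
  have step : ∀ M : {M : Set X // M.Countable}, ∃ M' M'' : Set X, M.1 ⊆ M' ∧ M' ⊆ M'' ∧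
      M' ∈ C ∧ M'' ∈ C' := by
    intro M
    obtain ⟨M', h1, h2⟩ := h.cofinal M.1 M.2
    obtain ⟨M'', h3, h4⟩ := h'.cofinal M' (h.ctbl M' h1)
    exact ⟨M', M'', h2, h4, h1, h3⟩
  choose F G hF hG hFC hGC using step
  let s : ℕ → {M : Set X // M.Countable} := fun n =>
    Nat.rec ⟨N, hN⟩ (fun _ M => ⟨G M, h'.ctbl _ (hGC M)⟩) n
  have hs : ∀ n, (s (n + 1)).1 = G (s n) := fun n => rfl
  have e1 : (⋃ n, F (s n)) = ⋃ n, (s n).1 := by
    apply Set.Subset.antisymm
    · refine iUnion_subset (fun n => ?_)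
      refine Set.Subset.trans ?_ (subset_iUnion _ (n + 1))
      rw [hs]
      exact hG (s n)
    · exact iUnion_mono (fun n => hF (s n))
  have e2 : (⋃ n, G (s n)) = ⋃ n, (s n).1 := by
    apply Set.Subset.antisymm
    · refine iUnion_subset (fun n => ?_)
      rw [← hs]
      exact subset_iUnion (fun n => (s n).1) (n + 1)
    · exact iUnion_mono (fun n => (hF (s n)).trans (hG (s n)))
  refine ⟨⋃ n, (s n).1, ⟨?_, ?_⟩, ?_⟩
  · rw [← e1]
    refine h.closed _ ?_ (fun n => hFC _)
    refine monotone_nat_of_le_succ (fun n => ?_)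
    exact ((hG (s n)).trans (hs n).symm.subset).trans (hF (s (n + 1)))
  · rw [← e2]
    refine h'.closed _ ?_ (fun n => hGC _)
    refine monotone_nat_of_le_succ (fun n => ?_)
    exact ((hs n).symm.subset.trans (hF (s (n + 1)))).trans (hG (s (n + 1)))
  · exact subset_iUnion (fun n => (s n).1) 0

/-- The countable elementary submodels containing a given point contain a club. -/
theorem elem_club {X : Type v} (L : FirstOrder.Language.{0, 0}) [Countable L.Symbols]
    [L.Structure X] (a : X) : ∃ C : Set (Set X), IsClubCtbl C ∧ ∀ M ∈ C, a ∈ M ∧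
      ∃ S : L.ElementarySubstructure X, (S : Set X) = M := by
  classical
  have : Nonempty X := ⟨a⟩
  have hct : Countable (Σ n, (L.sum L.skolem₁).Functions n) := by
    rw [← mk_le_aleph0_iff]
    refine card_functions_sum_skolem₁_le.trans (max_le le_rfl ?_)
    exact mk_le_aleph0_iff.2 inferInstance
  refine ⟨{M | M.Countable ∧ a ∈ M ∧ ∃ S : (L.sum L.skolem₁).Substructure X, (S : Set X) = M},
    ⟨fun M hM => hM.1, ?_, ?_⟩, ?_⟩
  · intro N hN
    refine ⟨(Substructure.closure (L.sum L.skolem₁) (insert a N) : Set X), ⟨?_, ?_, ⟨_, rfl⟩⟩, ?_⟩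
    · exact Set.Countable.substructure_closure (L.sum L.skolem₁) (hN.insert a)
    · exact Substructure.subset_closure (mem_insert _ _)
    · exact (subset_insert _ _).trans Substructure.subset_closure
  · intro c hc hcC
    refine ⟨countable_iUnion (fun n => (hcC n).1), mem_iUnion.2 ⟨0, (hcC 0).2.1⟩, ?_⟩
    choose S hS using fun n => (hcC n).2.2
    refine ⟨⟨⋃ n, c n, ?_⟩, rfl⟩
    intro n f x hx
    choose k hk using fun i => mem_iUnion.1 (hx i)
    obtain ⟨m, hm⟩ := Finset.exists_le (Finset.univ.image k)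
    have hx' : ∀ i, x i ∈ c m := fun i =>
      hc (hm (k i) (Finset.mem_image_of_mem k (Finset.mem_univ i))) (hk i)
    refine mem_iUnion.2 ⟨m, ?_⟩
    rw [← hS m]
    exact (S m).fun_mem f x (fun i => by
      have h0 : x i ∈ (S m : Set X) := by rw [hS m]; exact hx' i
      exact h0)
  · rintro M ⟨-, ha, S, hS⟩
    exact ⟨ha, S.elementarySkolem₁Reduct, hS⟩

/-- The club form of properness implies the form with elementary submodels. -/
theorem ClubProper.isProper {P : Type u} [PartialOrder P] (h : ClubProper.{u, v} P) :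
    IsProper.{u, v} P := by
  intro X L _ _ a i j hi hj
  obtain ⟨C, hC, hCg⟩ := h X i j hi hj
  obtain ⟨C', hC', hCe⟩ := elem_club L a
  exact ⟨C ∩ C', hC.inter hC', fun M hM => ⟨(hCe M hM.2).2, (hCe M hM.2).1, hCg M hM.1⟩⟩

end FAP
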