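import Pool.Agent.Helper94.FAP.Base

/-!
# FAP: sequences of length `ω₁` and refinement to strictly monotone functions
-/

open Set Cardinal

universe u v

namespace FAP

variable {A B : Type u} [LinearOrder A] [LinearOrder B]

theorem seq_exists (T : Setup A B) {X : Type v} (Q : X → Prop) (Rel : X → X → Prop)
    (h : ∀ C : Set X, C.Countable → (∀ c ∈ C, Q c) → ∃ x, Q x ∧ ∀ c ∈ C, Rel c x) :
    ∃ s : A → X, (∀ ζ, Q (s ζ)) ∧ ∀ ζ' ζ, ζ' < ζ → Rel (s ζ') (s ζ) := by
  classical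
  have hstep : ∀ C : Set X, ∃ x, C.Countable → (∀ c ∈ C, Q c) → Q x ∧ ∀ c ∈ C, Rel c x := by
    intro C
    by_cases hC : C.Countable
    · by_cases hQ : ∀ c ∈ C, Q c
      · obtain ⟨x, hx⟩ := h C hC hQ
        exact ⟨x, fun _ _ => hx⟩
      · obtain ⟨x, -⟩ := h ∅ countable_empty (fun c hc => absurd hc (notMem_empty c))
        exact ⟨x, fun _ h => absurd h hQ⟩
    · obtain ⟨x, -⟩ := h ∅ countable_empty (fun c hc => absurd hc (notMem_empty c))
      exact ⟨x, fun h => absurd h hC⟩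
  choose F hF using hstep
  let s : A → X := T.wfA.wf.fix (fun ζ ih => F {x | ∃ (ζ' : A) (h : ζ' < ζ), ih ζ' h = x})
  have hs : ∀ ζ, s ζ = F (s '' Iio ζ) := by
    intro ζ
    have := T.wfA.wf.fix_eq (fun ζ ih => F {x | ∃ (ζ' : A) (h : ζ' < ζ), ih ζ' h = x}) ζ
    refine this.trans ?_
    congr 1
    ext x
    constructor
    · rintro ⟨ζ', h, rfl⟩
      exact ⟨ζ', h, rfl⟩
    · rintro ⟨ζ', h, rfl⟩
      exact ⟨ζ', h, rfl⟩
  have hc : ∀ ζ, (s '' Iio ζ).Countable := fun ζ => (T.ctA ζ).image s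
  have hQ : ∀ ζ, Q (s ζ) := by
    intro ζ
    induction ζ using T.wfA.wf.induction with
    | _ ζ ih =>
      rw [hs ζ]
      refine (hF _ (hc ζ) ?_).1
      rintro _ ⟨ζ', h, rfl⟩
      exact ih ζ' h
  refine ⟨s, hQ, fun ζ' ζ hlt => ?_⟩
  rw [hs ζ]
  refine (hF _ (hc ζ) ?_).2 _ ⟨ζ', hlt, rfl⟩
  rintro _ ⟨ζ'', _, rfl⟩
  exact hQ ζ''

theorem not_countable_univ (T : Setup A B) : ¬ (Set.univ : Set A).Countable := by
  intro h1
  have h3 : #A ≤ ℵ₀ := by
    rw [← mk_univ]
    exact h1.le_aleph0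
  rw [T.cardA] at h3
  have : ℵ₀ < ℵ_ 1 := by
    rw [← aleph_zero]
    exact aleph_lt_aleph.2 zero_lt_one
  exact absurd h3 (not_le.2 this)

theorem refine_one (T : Setup A B) (t : A → B) (ht : Function.Injective t) :
    ∃ s : A → A, StrictMono s ∧ StrictMono (t ∘ s) := by
  obtain ⟨U, hU, hUc⟩ : ∃ U : Set A, ¬ U.Countable ∧
      ∀ a' ∈ U, {a | t a ≤ t a'}.Countable := by
    have key : ∀ a', {a | t a < t a'}.Countable → {a | t a ≤ t a'}.Countable := by
      intro a' h
      refine (h.union (countable_singleton a')).mono ?_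
      intro a ha
      rcases lt_or_eq_of_le (show t a ≤ t a' from ha) with h1 | h1
      · exact Or.inl h1
      · exact Or.inr (ht h1)
    by_cases hex : ∃ b, ¬ {a | t a < b}.Countable
    · have hmin : ∃ b, ¬ {a | t a < b}.Countable ∧ ∀ b' < b, {a | t a < b'}.Countable := by
        refine ⟨T.wfB.wf.min {b | ¬ {a | t a < b}.Countable} hex,
          T.wfB.wf.min_mem _ hex, fun b' hb' => ?_⟩
        by_contra hcon
        exact T.wfB.wf.not_lt_min {b | ¬ {a | t a < b}.Countable} hcon hb'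
      obtain ⟨b, hb, hb'⟩ := hmin
      exact ⟨{a | t a < b}, hb, fun a' ha' => key a' (hb' _ ha')⟩
    · push Not at hex
      exact ⟨Set.univ, not_countable_univ T, fun a' _ => key a' (hex _)⟩
  obtain ⟨s, hs1, hs2⟩ := seq_exists T (fun a => a ∈ U) (fun c a => c < a ∧ t c < t a) (by
    intro C hC hCU
    by_contra hcon
    push Not at hcon
    apply hU
    have h1 : (⋃ c ∈ C, (Iic c ∪ {a | t a ≤ t c})).Countable := by
      refine hC.biUnion fun c hc => Countable.union ?_ (hUc c (hCU c hc))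
      have : Iic c = insert c (Iio c) := by
        ext z; simp [le_iff_lt_or_eq, or_comm]
      rw [this]
      exact (T.ctA c).insert c
    refine h1.mono fun a ha => ?_
    obtain ⟨c, hc, hca⟩ := hcon a ha
    refine mem_biUnion hc ?_
    by_cases h2 : c < a
    · exact Or.inr (hca h2)
    · exact Or.inl (not_lt.1 h2))
  exact ⟨s, fun ζ' ζ h => (hs2 ζ' ζ h).1, fun ζ' ζ h => (hs2 ζ' ζ h).2⟩

theorem refine_strictMono (T : Setup A B) (k : ℕ) (t : Fin k → A → B)
    (ht : ∀ i, Function.Injective (t i)) :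
    ∃ s : A → A, StrictMono s ∧ ∀ i, StrictMono (t i ∘ s) := by
  induction k with
  | zero => exact ⟨id, strictMono_id, fun i => i.elim0⟩
  | succ k ih =>
    obtain ⟨s, hs, hst⟩ := ih (fun i => t i.castSucc) (fun i => ht _)
    obtain ⟨s', hs', hst'⟩ := refine_one T (t (Fin.last k) ∘ s) ((ht _).comp hs.injective)
    refine ⟨s ∘ s', hs.comp hs', fun i => ?_⟩
    refine Fin.lastCases ?_ (fun j => ?_) i
    · exact hst'
    · exact (hst j).comp hs'

end FAP
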