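import Pool.Agent.Helper94.FAP.Base

open Set Cardinal

universe u v

namespace FAP

variable {A B : Type u} [LinearOrder A] [LinearOrder B]

/-- If all fibres of a map with at most `ℵ₁` values on `V` have at most `ℵ₁` elements, so has
`V`. -/
private theorem fib {Q Z : Type u} (V : Set Q) (φ : Q → Z) (S : Set Z) (hS : #S ≤ ℵ_ 1)
    (hφ : ∀ q ∈ V, φ q ∈ S) (hf : ∀ z ∈ S, #({q | q ∈ V ∧ φ q = z} : Set Q) ≤ ℵ_ 1) :
    #V ≤ ℵ_ 1 := by
  have h1 : V ⊆ ⋃ z : S, {q | q ∈ V ∧ φ q = z} := by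
    intro q hq
    exact mem_iUnion.2 ⟨⟨φ q, hφ q hq⟩, hq, rfl⟩
  refine (mk_le_mk_of_subset h1).trans ?_
  refine (mk_iUnion_le _).trans ?_
  have h2 : (⨆ z : S, #({q | q ∈ V ∧ φ q = (z : Z)} : Set Q)) ≤ ℵ_ 1 := by
    apply ciSup_le'
    rintro ⟨z, hz⟩
    exact hf z hz
  calc #S * _ ≤ ℵ_ 1 * ℵ_ 1 := mul_le_mul' hS h2
    _ = ℵ_ 1 := mul_eq_self (aleph0_le_aleph 1)

private theorem bunion {Q Z : Type u} (V : Set Q) (S : Set Z) (hS : #S ≤ ℵ_ 1) (F : Z → Set Q)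
    (hφ : ∀ q ∈ V, ∃ z ∈ S, q ∈ F z) (hf : ∀ z ∈ S, #(F z) ≤ ℵ_ 1) :
    #V ≤ ℵ_ 1 := by
  have h1 : V ⊆ ⋃ z : S, F z := by
    intro q hq
    obtain ⟨z, hz, hqz⟩ := hφ q hq
    exact mem_iUnion.2 ⟨⟨z, hz⟩, hqz⟩
  refine (mk_le_mk_of_subset h1).trans ?_
  refine (mk_iUnion_le _).trans ?_
  have h2 : (⨆ z : S, #(F z)) ≤ ℵ_ 1 := by
    apply ciSup_le'
    rintro ⟨z, hz⟩
    exact hf z hz
  calc #S * _ ≤ ℵ_ 1 * ℵ_ 1 := mul_le_mul' hS h2
    _ = ℵ_ 1 := mul_eq_self (aleph0_le_aleph 1)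

private theorem seqx (T : Setup A B) {X : Type v} (Q : X → Prop) (Rel : X → X → Prop)
    (h : ∀ C : Set X, C.Countable → (∀ c ∈ C, Q c) → ∃ x, Q x ∧ ∀ c ∈ C, Rel c x) :
    ∃ s : A → X, (∀ ζ, Q (s ζ)) ∧ ∀ ζ' ζ, ζ' < ζ → Rel (s ζ') (s ζ) := by
  classical
  have hx0 : ∃ x : X, True := by
    obtain ⟨x, -⟩ := h ∅ countable_empty (by simp)
    exact ⟨x, trivial⟩
  have hstep : ∀ C : Set X, ∃ x, C.Countable → (∀ c ∈ C, Q c) → Q x ∧ ∀ c ∈ C, Rel c x := by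
    intro C
    by_cases hc : C.Countable ∧ ∀ c ∈ C, Q c
    · obtain ⟨x, hx⟩ := h C hc.1 hc.2
      exact ⟨x, fun _ _ => hx⟩
    · obtain ⟨x, -⟩ := hx0
      exact ⟨x, fun h1 h2 => absurd ⟨h1, h2⟩ hc⟩
  choose F hF using hstep
  let s : A → X := T.wfA.wf.fix (fun a ih => F {x | ∃ (a' : A) (h : a' < a), ih a' h = x})
  have hs : ∀ a, s a = F {x | ∃ a', a' < a ∧ s a' = x} := by
    intro a
    have := T.wfA.wf.fix_eq (fun a ih => F {x | ∃ (a' : A) (h : a' < a), ih a' h = x}) a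
    refine this.trans ?_
    congr 1
    ext x
    simp only [mem_ofPred_eq]
    constructor
    · rintro ⟨a', h, rfl⟩
      exact ⟨a', h, rfl⟩
    · rintro ⟨a', h, rfl⟩
      exact ⟨a', h, rfl⟩
  have hct : ∀ a, ({x | ∃ a', a' < a ∧ s a' = x} : Set X).Countable := by
    intro a
    refine ((T.ctA a).image s).mono ?_
    rintro x ⟨a', h, rfl⟩
    exact ⟨a', h, rfl⟩
  have hQ : ∀ a, Q (s a) := by
    intro a
    induction a using T.wfA.wf.induction with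
    | _ a ih =>
      rw [hs a]
      refine (hF _ (hct a) ?_).1
      rintro x ⟨a', h, rfl⟩
      exact ih a' h
  refine ⟨s, hQ, ?_⟩
  intro a' a hlt
  rw [hs a]
  refine (hF _ (hct a) ?_).2 _ ⟨a', hlt, rfl⟩
  rintro x ⟨b, h, rfl⟩
  exact hQ b

theorem delta_pair (T : Setup A B) {Q Y : Type u} (W : Set Q) (hW : ¬ #W ≤ ℵ_ 1)
    (supp : Q → Finset B) (md : Q → Set B) (hmd : ∀ q, (md q).Countable)
    (data : Finset B → Q → Y) (hdata : ∀ d, #(Set.range (data d)) ≤ ℵ_ 1) :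
    ∃ d : Finset B, ∃ p ∈ W, ∃ q ∈ W, p ≠ q ∧ data d p = data d q ∧
      (∀ β ∈ supp p, β ∈ supp q → β ∈ d) ∧ (∀ β ∈ supp p, β ∈ md q → β ∈ d) ∧
      (∀ β ∈ supp q, β ∈ md p → β ∈ d) := by
  classical
  have h01 : ℵ₀ ≤ ℵ_ 1 := aleph0_le_aleph 1
  -- step 1
  have hstep1 : ∃ n : ℕ, ¬ #({q | q ∈ W ∧ (supp q).card = n} : Set Q) ≤ ℵ_ 1 := by
    by_contra hcon
    push Not at hcon
    apply hW
    refine fib W (fun q => (ULift.up (supp q).card : ULift.{u} ℕ)) Set.univ ?_ (by simp) ?_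
    · rw [mk_univ]
      simp
    · rintro ⟨n⟩ -
      refine le_trans (le_of_eq ?_) (hcon n)
      congr 2
      ext q
      simp
  obtain ⟨n, hn⟩ := hstep1
  set W0 : Set Q := {q | q ∈ W ∧ (supp q).card = n} with hW0
  -- step 2
  let K : Set ℕ := {k | ∃ d : Finset B, d.card = k ∧ ¬ #({q | q ∈ W0 ∧ d ⊆ supp q} : Set Q) ≤ ℵ_ 1}
  have hKne : K.Nonempty := by
    refine ⟨0, ∅, rfl, ?_⟩
    have : ({q | q ∈ W0 ∧ ∅ ⊆ supp q} : Set Q) = W0 := by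
      ext q; simp
    rw [this]
    exact hn
  have hKb : BddAbove K := by
    refine ⟨n, ?_⟩
    rintro k ⟨d, rfl, hd⟩
    have hne : ({q | q ∈ W0 ∧ d ⊆ supp q} : Set Q).Nonempty := by
      by_contra hem
      rw [not_nonempty_iff_eq_empty] at hem
      apply hd
      rw [hem]
      simp
    obtain ⟨q, hq, hdq⟩ := hne
    rw [← hq.2]
    exact Finset.card_le_card hdq
  obtain ⟨d, hdk, hdbig⟩ := Nat.sSup_mem hKne hKb
  set W1 : Set Q := {q | q ∈ W0 ∧ d ⊆ supp q} with hW1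
  have hsmall : ∀ β, β ∉ d → #({q | q ∈ W1 ∧ β ∈ supp q} : Set Q) ≤ ℵ_ 1 := by
    intro β hβ
    by_contra hcon
    have hmem : (insert β d).card ∈ K := by
      refine ⟨insert β d, rfl, ?_⟩
      have : ({q | q ∈ W0 ∧ insert β d ⊆ supp q} : Set Q) = {q | q ∈ W1 ∧ β ∈ supp q} := by
        ext q
        simp only [mem_ofPred_eq, hW1, Finset.insert_subset_iff]
        tauto
      rw [this]
      exact hcon
    have h1 := le_csSup hKb hmem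
    rw [Finset.card_insert_of_notMem hβ, hdk] at h1
    omega
  -- step 3
  have hstep3 : ∃ y, ¬ #({q | q ∈ W1 ∧ data d q = y} : Set Q) ≤ ℵ_ 1 := by
    by_contra hcon
    push Not at hcon
    exact hdbig (fib W1 (data d) _ (hdata d) (fun q _ => mem_range_self q) (fun z _ => hcon z))
  obtain ⟨y, hy⟩ := hstep3
  set W2 : Set Q := {q | q ∈ W1 ∧ data d q = y} with hW2
  -- step 4
  have hstep4 : ∀ (V : Set B) (S : Set Q), #V ≤ ℵ_ 1 → #S ≤ ℵ_ 1 →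
      ∃ p ∈ W2, p ∉ S ∧ ∀ β ∈ supp p, β ∈ V → β ∈ d := by
    intro V S hV hS
    by_contra hcon
    push Not at hcon
    apply hy
    have h1 : #({p | ∃ β ∈ V, β ∉ d ∧ p ∈ W1 ∧ β ∈ supp p} : Set Q) ≤ ℵ_ 1 := by
      refine bunion _ V hV (fun β => {p | β ∉ d ∧ p ∈ W1 ∧ β ∈ supp p}) ?_ ?_
      · rintro p ⟨β, hβ, hβd, hp, hβp⟩
        exact ⟨β, hβ, hβd, hp, hβp⟩
      · intro β _
        by_cases hβd : β ∈ d
        · have : ({p | β ∉ d ∧ p ∈ W1 ∧ β ∈ supp p} : Set Q) = ∅ := by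
            ext p; simp [hβd]
          rw [this]
          simp
        · refine le_trans (mk_le_mk_of_subset ?_) (hsmall β hβd)
          rintro p ⟨-, hp, hβp⟩
          exact ⟨hp, hβp⟩
    have h2 : W2 ⊆ S ∪ {p | ∃ β ∈ V, β ∉ d ∧ p ∈ W1 ∧ β ∈ supp p} := by
      intro p hp
      by_cases hpS : p ∈ S
      · exact Or.inl hpS
      · obtain ⟨β, hβ, hβV, hβd⟩ := hcon p hp hpS
        exact Or.inr ⟨β, hβV, hβd, hp.1, hβ⟩
    refine (mk_le_mk_of_subset h2).trans ((mk_union_le _ _).trans ?_)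
    calc _ ≤ ℵ_ 1 + ℵ_ 1 := add_le_add hS h1
      _ = ℵ_ 1 := add_eq_self h01
  -- step 5
  obtain ⟨s, hs, hrel⟩ := seqx T (fun q => q ∈ W2)
    (fun q q' => q ≠ q' ∧ ∀ β ∈ supp q', β ∈ supp q → β ∈ d) (by
      intro C hC _
      obtain ⟨p, hp, hpC, hpd⟩ := hstep4 (⋃ c ∈ C, (supp c : Set B)) C
        (by
          have : (⋃ c ∈ C, (supp c : Set B)).Countable :=
            hC.biUnion (fun c _ => (supp c).countable_toSet)
          exact this.le_aleph0.trans h01)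
        (hC.le_aleph0.trans h01)
      refine ⟨p, hp, ?_⟩
      intro c hc
      refine ⟨?_, ?_⟩
      · rintro rfl
        exact hpC hc
      · intro β hβ hβc
        exact hpd β hβ (mem_biUnion hc hβc))
  -- step 6
  have hVcard : #(⋃ ζ : A, ((supp (s ζ) : Set B) ∪ md (s ζ)) : Set B) ≤ ℵ_ 1 := by
    refine (mk_iUnion_le _).trans ?_
    have h2 : (⨆ ζ : A, #(((supp (s ζ) : Set B) ∪ md (s ζ)) : Set B)) ≤ ℵ_ 1 := by
      apply ciSup_le'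
      intro ζ
      have : ((supp (s ζ) : Set B) ∪ md (s ζ)).Countable :=
        ((supp (s ζ)).countable_toSet).union (hmd (s ζ))
      exact this.le_aleph0.trans h01
    calc #A * _ ≤ ℵ_ 1 * ℵ_ 1 := mul_le_mul' T.cardA.le h2
      _ = ℵ_ 1 := mul_eq_self h01
  obtain ⟨p, hp, hpr, hpd⟩ := hstep4 _ (Set.range s) hVcard (mk_range_le.trans T.cardA.le)
  -- step 7
  have hcount : ({ζ | ∃ β ∈ md p, β ∉ d ∧ β ∈ supp (s ζ)} : Set A).Countable := by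
    have h1 : ({ζ | ∃ β ∈ md p, β ∉ d ∧ β ∈ supp (s ζ)} : Set A) ⊆
        ⋃ β ∈ md p, {ζ | β ∉ d ∧ β ∈ supp (s ζ)} := by
      rintro ζ ⟨β, hβ, hβd, hβs⟩
      exact mem_biUnion hβ ⟨hβd, hβs⟩
    refine ((hmd p).biUnion ?_).mono h1
    intro β _
    refine Set.Subsingleton.countable ?_
    rintro ζ ⟨hβd, hβ⟩ ζ' ⟨-, hβ'⟩
    rcases lt_trichotomy ζ ζ' with h | h | h
    · exact absurd ((hrel ζ ζ' h).2 β hβ' hβ) hβd
    · exact h
    · exact absurd ((hrel ζ' ζ h).2 β hβ hβ') hβd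
  obtain ⟨ζ, hζ⟩ : ∃ ζ, ζ ∉ ({ζ | ∃ β ∈ md p, β ∉ d ∧ β ∈ supp (s ζ)} : Set A) := by
    by_contra hcon
    push Not at hcon
    have h1 : (Set.univ : Set A).Countable := hcount.mono (fun ζ _ => hcon ζ)
    have h2 : #A ≤ ℵ₀ := by
      rw [← mk_univ]
      exact h1.le_aleph0
    rw [T.cardA, ← aleph_zero] at h2
    exact absurd h2 (not_le.2 (aleph_lt_aleph.2 zero_lt_one))
  refine ⟨d, p, hp.1.1.1, s ζ, (hs ζ).1.1.1, ?_, ?_, ?_, ?_, ?_⟩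
  · rintro rfl
    exact hpr ⟨ζ, rfl⟩
  · rw [hp.2, (hs ζ).2]
  · intro β hβ hβ'
    exact hpd β hβ (mem_iUnion.2 ⟨ζ, Or.inl hβ'⟩)
  · intro β hβ hβ'
    exact hpd β hβ (mem_iUnion.2 ⟨ζ, Or.inr hβ'⟩)
  · intro β hβ hβ'
    by_contra hβd
    exact hζ ⟨β, hβ', hβd, hβ⟩

end FAP
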