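import Pool.Agent.Helper94.FAP.Base
import Pool.Agent.Helper94.FAP.F11a

open Set Cardinal

universe u v

namespace FAP

section aux

theorem card_finset_le {γ : Type u} (h : #γ ≤ ℵ_ 1) : #(Finset γ) ≤ ℵ_ 1 := by
  classical
  have h1 : #(Finset γ) ≤ #(List γ) :=
    mk_le_of_surjective (f := fun l : List γ => l.toFinset) (fun s => ⟨s.toList, by simp⟩)
  exact h1.trans ((mk_list_le_max γ).trans (max_le (aleph0_le_aleph 1) h))

theorem card_finset_sub {γ : Type u} (U : Set γ) (hU : #U ≤ ℵ_ 1) :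
    #{s : Finset γ // (s : Set γ) ⊆ U} ≤ ℵ_ 1 := by
  classical
  refine (mk_le_of_surjective (f := fun s' : Finset U =>
    (⟨s'.map (Function.Embedding.subtype _), by
      intro y hy
      simp only [Finset.coe_map, Set.mem_image] at hy
      obtain ⟨z, -, rfl⟩ := hy
      exact z.2⟩ : {s : Finset γ // (s : Set γ) ⊆ U})) ?_).trans (card_finset_le hU)
  rintro ⟨s, hs⟩
  refine ⟨s.attach.map ⟨fun y => ⟨y.1, hs y.2⟩, ?_⟩, ?_⟩
  · intro y z hyz
    exact Subtype.ext (Subtype.mk.inj hyz)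
  · apply Subtype.ext
    ext y
    simp only [Finset.mem_map, Finset.mem_attach, Function.Embedding.coeFn_mk, true_and,
      Subtype.exists, Function.Embedding.subtype_apply]
    constructor
    · rintro ⟨a, ha, ⟨b, hb, hab⟩, rfl⟩
      have : b = a := congrArg Subtype.val hab
      exact this ▸ hb
    · intro hy
      exact ⟨y, hs hy, ⟨y, hy, rfl⟩, rfl⟩

theorem card_over {B γ : Type u} (d : Finset B) (h : #γ ≤ ℵ_ 1) :
    #{y : B × γ | y.1 ∈ d} ≤ ℵ_ 1 := by
  have h1 : #{y : B × γ | y.1 ∈ d} ≤ #(d × γ) := by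
    refine mk_le_of_injective (f := fun y => (⟨y.1.1, y.2⟩, y.1.2)) ?_
    rintro ⟨⟨a, b⟩, h⟩ ⟨⟨a', b'⟩, h'⟩ heq
    simp only [Prod.mk.injEq, Subtype.mk.injEq] at heq
    obtain ⟨rfl, rfl⟩ := heq
    rfl
  refine h1.trans ?_
  rw [mk_prod, lift_id, lift_id]
  have h2 : #d ≤ ℵ_ 1 := (mk_le_aleph0).trans (aleph0_le_aleph 1)
  exact (mul_le_mul' h2 h).trans (mul_eq_self (aleph0_le_aleph 1)).le

end aux

variable {A B : Type u} [LinearOrder A] [LinearOrder B]

theorem pos_cc (T : Setup A B) (Act : B → A → Prop) (bit : B → Bool) :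
    Aleph2CC (Pos T Act bit) := by
  classical
  intro W hW
  by_contra hbig
  let supp : Pos T Act bit → Finset B := fun p =>
    p.1.In.image Prod.fst ∪ p.1.Out.image Prod.fst ∪ p.1.h.image Prod.fst
  let md : Pos T Act bit → Set B := fun p => ⋃ y ∈ p.1.Mod, y.2
  let data : Finset B → Pos T Act bit →
      Finset (A × A) × Finset (B × A × Bool) × Finset (B × A) × Finset (B × A × A) := fun d p =>
    (p.1.g, p.1.h.filter (fun y => y.1 ∈ d), p.1.In.filter (fun y => y.1 ∈ d),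
      p.1.Out.filter (fun y => y.1 ∈ d))
  have hmd : ∀ q, (md q).Countable := by
    intro q
    refine (Finset.countable_toSet q.1.Mod).biUnion ?_
    rintro ⟨η, N⟩ hy
    exact (q.2.c4s η N hy).1
  have hAA : #(A × A) ≤ ℵ_ 1 := by
    simp only [mk_prod, lift_id, T.cardA]
    exact (mul_eq_self (aleph0_le_aleph 1)).le
  have hAb : #(A × Bool) ≤ ℵ_ 1 := by
    simp only [mk_prod, mk_fintype, Fintype.card_bool, Nat.cast_ofNat, lift_ofNat, lift_uzero,
      T.cardA]
    refine (mul_le_mul' le_rfl ?_).trans (mul_eq_self (aleph0_le_aleph 1)).le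
    exact (natCast_lt_aleph0 (n := 2)).le.trans (aleph0_le_aleph 1)
  have hdata : ∀ d, #(Set.range (data d)) ≤ ℵ_ 1 := by
    intro d
    let Z : Type u := Finset (A × A) ×
      {s : Finset (B × A × Bool) // (s : Set (B × A × Bool)) ⊆ {y | y.1 ∈ d}} ×
      {s : Finset (B × A) // (s : Set (B × A)) ⊆ {y | y.1 ∈ d}} ×
      {s : Finset (B × A × A) // (s : Set (B × A × A)) ⊆ {y | y.1 ∈ d}}
    let H : Z → Finset (A × A) × Finset (B × A × Bool) × Finset (B × A) × Finset (B × A × A) :=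
      fun z => (z.1, z.2.1.1, z.2.2.1.1, z.2.2.2.1)
    have hsub : Set.range (data d) ⊆ Set.range H := by
      rintro _ ⟨p, rfl⟩
      refine ⟨⟨p.1.g, ⟨p.1.h.filter (fun y => y.1 ∈ d), ?_⟩,
        ⟨p.1.In.filter (fun y => y.1 ∈ d), ?_⟩, ⟨p.1.Out.filter (fun y => y.1 ∈ d), ?_⟩⟩, rfl⟩
      all_goals
        intro y hy
        exact (Finset.mem_filter.1 hy).2
    refine (mk_le_mk_of_subset hsub).trans (mk_range_le.trans ?_)
    change #(Finset (A × A) × _ × _ × _) ≤ _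
    simp only [mk_prod, lift_id]
    have e1 := card_finset_le hAA
    have e2 := card_finset_sub _ (card_over (B := B) d hAb)
    have e3 := card_finset_sub _ (card_over (B := B) d T.cardA.le)
    have e4 := card_finset_sub _ (card_over (B := B) d hAA)
    have hm := mul_eq_self (aleph0_le_aleph 1)
    refine (mul_le_mul' e1 (mul_le_mul' e2 (mul_le_mul' e3 e4))).trans ?_
    rw [hm, hm, hm]
  obtain ⟨d, p, hp, q, hq, hne, hdat, h1, h2, h3⟩ := delta_pair T W hbig supp md hmd data hdata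
  simp only [data, Prod.mk.injEq] at hdat
  obtain ⟨dg, dh, dIn, dOut⟩ := hdat
  have sIn : ∀ (r : Pos T Act bit) δ η, (δ, η) ∈ r.1.In → δ ∈ supp r := by
    intro r δ η h
    simp only [supp, Finset.mem_union, Finset.mem_image]
    exact Or.inl (Or.inl ⟨_, h, rfl⟩)
  have sOut : ∀ (r : Pos T Act bit) δ a b, (δ, a, b) ∈ r.1.Out → δ ∈ supp r := by
    intro r δ a b h
    simp only [supp, Finset.mem_union, Finset.mem_image]
    exact Or.inl (Or.inr ⟨_, h, rfl⟩)
  have sh : ∀ (r : Pos T Act bit) δ η b, (δ, η, b) ∈ r.1.h → δ ∈ supp r := by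
    intro r δ η b h
    simp only [supp, Finset.mem_union, Finset.mem_image]
    exact Or.inr ⟨_, h, rfl⟩
  have smd : ∀ (r : Pos T Act bit) η N δ, (η, N) ∈ r.1.Mod → δ ∈ N → δ ∈ md r := by
    intro r η N δ h hδ
    exact mem_biUnion (show (η, N) ∈ (r.1.Mod : Set _) from h) hδ
  have tIn : ∀ δ η, δ ∈ d → ((δ, η) ∈ p.1.In ↔ (δ, η) ∈ q.1.In) := by
    intro δ η hδ
    have := Finset.ext_iff.1 dIn (δ, η)
    simpa [Finset.mem_filter, hδ] using this
  have tOut : ∀ δ a b, δ ∈ d → ((δ, a, b) ∈ p.1.Out ↔ (δ, a, b) ∈ q.1.Out) := by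
    intro δ a b hδ
    have := Finset.ext_iff.1 dOut (δ, a, b)
    simpa [Finset.mem_filter, hδ] using this
  have th : ∀ δ a b, δ ∈ d → ((δ, a, b) ∈ p.1.h ↔ (δ, a, b) ∈ q.1.h) := by
    intro δ a b hδ
    have := Finset.ext_iff.1 dh (δ, a, b)
    simpa [Finset.mem_filter, hδ] using this
  have hv : Valid T Act bit (p.1.un q.1) := by
    refine ⟨?_, ?_, ?_, ?_, ?_, ?_, ?_, ?_, ?_, ?_, ?_⟩
    · intro η ξ ξ' h h'
      simp only [Pre.mem_un_g, ← dg, or_self] at h h'
      exact p.2.c0g η ξ ξ' h h'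
    · intro α η b b' h h'
      rw [Pre.mem_un_h] at h h'
      rcases h with h | h <;> rcases h' with h' | h'
      · exact p.2.c0h α η b b' h h'
      · have hd := h1 α (sh p _ _ _ h) (sh q _ _ _ h')
        exact q.2.c0h α η b b' ((th _ _ _ hd).1 h) h'
      · have hd := h1 α (sh p _ _ _ h') (sh q _ _ _ h)
        exact q.2.c0h α η b b' h ((th _ _ _ hd).1 h')
      · exact q.2.c0h α η b b' h h'
    · intro δ η h
      rcases Pre.mem_un_In.1 h with h | h
      · exact p.2.c1S δ η h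
      · exact q.2.c1S δ η h
    · intro δ η h
      rcases Pre.mem_un_In.1 h with h | h
      · obtain ⟨ξ, hξ, hf⟩ := p.2.c1g δ η h
        exact ⟨ξ, Pre.mem_un_g.2 (Or.inl hξ), hf⟩
      · obtain ⟨ξ, hξ, hf⟩ := q.2.c1g δ η h
        exact ⟨ξ, Pre.mem_un_g.2 (Or.inr hξ), hf⟩
    · intro δ η h hact
      rcases Pre.mem_un_In.1 h with h | h
      · exact Pre.mem_un_h.2 (Or.inl (p.2.c1h δ η h hact))
      · exact Pre.mem_un_h.2 (Or.inr (q.2.c1h δ η h hact))
    · intro δ η a b h h' hlt hle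
      rcases Pre.mem_un_In.1 h with h | h <;> rcases Pre.mem_un_Out.1 h' with h' | h'
      · exact p.2.c2 δ η a b h h' hlt hle
      · have hd := h1 δ (sIn p _ _ h) (sOut q _ _ _ h')
        exact q.2.c2 δ η a b ((tIn _ _ hd).1 h) h' hlt hle
      · have hd := h1 δ (sOut p _ _ _ h') (sIn q _ _ h)
        exact q.2.c2 δ η a b h ((tOut _ _ _ hd).1 h') hlt hle
      · exact q.2.c2 δ η a b h h' hlt hle
    · intro η N δ a b h hδ h' hlt hle
      rcases Pre.mem_un_Mod.1 h with h | h <;> rcases Pre.mem_un_Out.1 h' with h' | h'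
      · exact p.2.c3 η N δ a b h hδ h' hlt hle
      · have hd := h3 δ (sOut q _ _ _ h') (smd p _ _ _ h hδ)
        exact p.2.c3 η N δ a b h hδ ((tOut _ _ _ hd).2 h') hlt hle
      · have hd := h2 δ (sOut p _ _ _ h') (smd q _ _ _ h hδ)
        exact q.2.c3 η N δ a b h hδ ((tOut _ _ _ hd).1 h') hlt hle
      · exact q.2.c3 η N δ a b h hδ h' hlt hle
    · intro η N h
      rcases Pre.mem_un_Mod.1 h with h | h
      · exact p.2.c4s η N h
      · exact q.2.c4s η N h
    · intro η N h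
      rcases Pre.mem_un_Mod.1 h with h | h
      · obtain ⟨ξ, hξ, hs⟩ := p.2.c4g η N h
        exact ⟨ξ, Pre.mem_un_g.2 (Or.inl hξ), hs⟩
      · obtain ⟨ξ, hξ, hs⟩ := q.2.c4g η N h
        exact ⟨ξ, Pre.mem_un_g.2 (Or.inr hξ), hs⟩
    · intro η N h δ hδ hS hact
      rcases Pre.mem_un_Mod.1 h with h | h
      · exact Pre.mem_un_h.2 (Or.inl (p.2.c4h η N h δ hδ hS hact))
      · exact Pre.mem_un_h.2 (Or.inr (q.2.c4h η N h δ hδ hS hact))
    · intro η ξ ζ ξ' h h' hlt
      simp only [Pre.mem_un_g, ← dg, or_self] at h h'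
      exact p.2.c5 η ξ ζ ξ' h h' hlt
  exact hW p hp q hq hne ⟨⟨p.1.un q.1, hv⟩, Pre.un_le_left _ _, Pre.un_le_right _ _⟩

end FAP
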