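import Pool.Agent.Helper94.FAP.Base

open Set Cardinal

universe u v

namespace FAP

variable {A B : Type u} [LinearOrder A] [LinearOrder B]

open Classical in
theorem D1_dense (T : Setup A B) (Act : B → A → Prop) (bit : B → Bool) (δ : B) (hδ : δ ∈ SS B)
    (η : A) (hη : ∃ a, a < η) : IsDense (D1 T Act bit δ η) := by
  rintro ⟨p, hp⟩
  by_cases h0 : (δ, η) ∈ p.In
  · exact ⟨⟨p, hp⟩, Or.inl h0, le_refl _⟩
  by_cases h1 : ∃ M, (η, M) ∈ p.Mod ∧ δ ∈ M
  · obtain ⟨M, hM, hδM⟩ := h1
    have hV : Valid T Act bit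
        (⟨p.g, p.h, insert (δ, η) p.In, p.Out, p.Mod⟩ : Pre A B) := by
      refine ⟨hp.c0g, hp.c0h, ?_, ?_, ?_, ?_, hp.c3, hp.c4s, hp.c4g, hp.c4h, hp.c5⟩
      · intro δ' η' h
        rcases Finset.mem_insert.1 h with h | h
        · obtain ⟨rfl, rfl⟩ := Prod.mk.inj h
          exact hδ
        · exact hp.c1S _ _ h
      · intro δ' η' h
        rcases Finset.mem_insert.1 h with h | h
        · obtain ⟨rfl, rfl⟩ := Prod.mk.inj h
          obtain ⟨ξ, hξ, hs⟩ := hp.c4g _ _ hM
          exact ⟨ξ, hξ, small_f_lt T (hp.c4s _ _ hM) hs hδM⟩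
        · exact hp.c1g _ _ h
      · intro δ' η' h hA
        rcases Finset.mem_insert.1 h with h | h
        · obtain ⟨rfl, rfl⟩ := Prod.mk.inj h
          exact hp.c4h _ _ hM _ hδM hδ hA
        · exact hp.c1h _ _ h hA
      · intro δ' η' a b h ho ha hb
        rcases Finset.mem_insert.1 h with h | h
        · obtain ⟨rfl, rfl⟩ := Prod.mk.inj h
          exact hp.c3 _ _ _ _ _ hM hδM ho ha hb
        · exact hp.c2 _ _ _ _ h ho ha hb
    refine ⟨⟨_, hV⟩, Or.inl (Finset.mem_insert_self _ _), ?_⟩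
    exact ⟨subset_rfl, subset_rfl, Finset.subset_insert _ _, subset_rfl, subset_rfl⟩
  · push Not at h1
    obtain ⟨a0, ha0⟩ := hη
    let K : Finset A :=
      insert a0 ((p.In.image Prod.snd ∪ p.Mod.image Prod.fst).filter (fun y => y < η))
    obtain ⟨a, haK, hmax⟩ := K.exists_max_image id ⟨a0, Finset.mem_insert_self _ _⟩
    have haη : a < η := by
      rcases Finset.mem_insert.1 haK with h | h
      · rw [h]; exact ha0
      · exact (Finset.mem_filter.1 h).2
    have hV : Valid T Act bit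
        (⟨p.g, p.h, p.In, insert (δ, a, η) p.Out, p.Mod⟩ : Pre A B) := by
      refine ⟨hp.c0g, hp.c0h, hp.c1S, hp.c1g, hp.c1h, ?_, ?_, hp.c4s, hp.c4g, hp.c4h, hp.c5⟩
      · intro δ' η' a' b' h ho ha hb
        rcases Finset.mem_insert.1 ho with ho | ho
        · obtain ⟨rfl, ho2⟩ := Prod.mk.inj ho
          obtain ⟨rfl, rfl⟩ := Prod.mk.inj ho2
          rcases hb.lt_or_eq with hb | hb
          · have : η' ∈ K := by
              refine Finset.mem_insert_of_mem (Finset.mem_filter.2 ⟨?_, hb⟩)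
              exact Finset.mem_union_left _ (Finset.mem_image.2 ⟨_, h, rfl⟩)
            exact absurd (hmax _ this) (not_le.2 ha)
          · rw [hb] at h
            exact h0 h
        · exact hp.c2 _ _ _ _ h ho ha hb
      · intro η' M δ' a' b' h hm ho ha hb
        rcases Finset.mem_insert.1 ho with ho | ho
        · obtain ⟨rfl, ho2⟩ := Prod.mk.inj ho
          obtain ⟨rfl, rfl⟩ := Prod.mk.inj ho2
          rcases hb.lt_or_eq with hb | hb
          · have : η' ∈ K := by
              refine Finset.mem_insert_of_mem (Finset.mem_filter.2 ⟨?_, hb⟩)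
              exact Finset.mem_union_right _ (Finset.mem_image.2 ⟨_, h, rfl⟩)
            exact absurd (hmax _ this) (not_le.2 ha)
          · rw [hb] at h
            exact h1 M h hm
        · exact hp.c3 _ _ _ _ _ h hm ho ha hb
    refine ⟨⟨_, hV⟩, Or.inr ⟨a, η, Finset.mem_insert_self _ _, haη, le_refl _⟩, ?_⟩
    exact ⟨subset_rfl, subset_rfl, subset_rfl, Finset.subset_insert _ _, subset_rfl⟩

open Classical in
theorem D2_dense (T : Setup A B) (Act : B → A → Prop) (bit : B → Bool) (δ : B) (hδ : δ ∈ SS B)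
    (ξ : A) : IsDense (D2 T Act bit δ ξ) := by
  rintro ⟨p, hp⟩
  let K : Finset A :=
    insert ξ (p.g.image Prod.fst ∪ p.g.image Prod.snd ∪ p.h.image (fun y => y.2.1) ∪
      p.In.image Prod.snd ∪ p.Out.image (fun y => y.2.1) ∪ p.Out.image (fun y => y.2.2) ∪
      p.Mod.image Prod.fst)
  obtain ⟨η, hη⟩ := ctbl_bdd T (K : Set A) K.finite_toSet.countable
  have hξ : ξ < η := hη ξ (by simp [K])
  have hg1 : ∀ a b, (a, b) ∈ p.g → a < η := by
    intro a b h
    apply hη
    simp only [K, Finset.coe_insert, Finset.coe_union, Finset.coe_image, mem_insert_iff,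
      mem_union, mem_image, Finset.mem_coe]
    exact Or.inr (Or.inl (Or.inl (Or.inl (Or.inl (Or.inl (Or.inl ⟨_, h, rfl⟩))))))
  have hg2 : ∀ a b, (a, b) ∈ p.g → b < η := by
    intro a b h
    apply hη
    simp only [K, Finset.coe_insert, Finset.coe_union, Finset.coe_image, mem_insert_iff,
      mem_union, mem_image, Finset.mem_coe]
    exact Or.inr (Or.inl (Or.inl (Or.inl (Or.inl (Or.inl (Or.inr ⟨_, h, rfl⟩))))))
  have hh : ∀ α a i, (α, a, i) ∈ p.h → a < η := by
    intro α a i h
    apply hη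
    simp only [K, Finset.coe_insert, Finset.coe_union, Finset.coe_image, mem_insert_iff,
      mem_union, mem_image, Finset.mem_coe]
    exact Or.inr (Or.inl (Or.inl (Or.inl (Or.inl (Or.inr ⟨_, h, rfl⟩)))))
  have hO : ∀ α a b, (α, a, b) ∈ p.Out → b < η := by
    intro α a b h
    apply hη
    simp only [K, Finset.coe_insert, Finset.coe_union, Finset.coe_image, mem_insert_iff,
      mem_union, mem_image, Finset.mem_coe]
    exact Or.inr (Or.inl (Or.inr ⟨_, h, rfl⟩))
  obtain ⟨ξ', hξ'⟩ := ctbl_bdd T {T.f δ η} (countable_singleton _)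
  have hξ'' : T.f δ η < ξ' := hξ' _ rfl
  have hV : Valid T Act bit
      (⟨insert (η, ξ') p.g, insert (T.x δ η, η, bit δ) p.h, insert (δ, η) p.In, p.Out, p.Mod⟩ :
        Pre A B) := by
    refine ⟨?_, ?_, ?_, ?_, ?_, ?_, hp.c3, hp.c4s, ?_, ?_, ?_⟩
    · intro a b b' h h'
      rcases Finset.mem_insert.1 h with h | h <;> rcases Finset.mem_insert.1 h' with h' | h'
      · rw [(Prod.mk.inj h).2, (Prod.mk.inj h').2]
      · rw [(Prod.mk.inj h).1] at h'
        exact absurd (hg1 _ _ h') (lt_irrefl _)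
      · rw [(Prod.mk.inj h').1] at h
        exact absurd (hg1 _ _ h) (lt_irrefl _)
      · exact hp.c0g _ _ _ h h'
    · intro α a i i' h h'
      rcases Finset.mem_insert.1 h with h | h <;> rcases Finset.mem_insert.1 h' with h' | h'
      · rw [(Prod.mk.inj (Prod.mk.inj h).2).2, (Prod.mk.inj (Prod.mk.inj h').2).2]
      · rw [(Prod.mk.inj (Prod.mk.inj h).2).1] at h'
        exact absurd (hh _ _ _ h') (lt_irrefl _)
      · rw [(Prod.mk.inj (Prod.mk.inj h').2).1] at h
        exact absurd (hh _ _ _ h) (lt_irrefl _)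
      · exact hp.c0h _ _ _ _ h h'
    · intro δ' η' h
      rcases Finset.mem_insert.1 h with h | h
      · rw [(Prod.mk.inj h).1]; exact hδ
      · exact hp.c1S _ _ h
    · intro δ' η' h
      rcases Finset.mem_insert.1 h with h | h
      · rw [(Prod.mk.inj h).1, (Prod.mk.inj h).2]
        exact ⟨ξ', Finset.mem_insert_self _ _, hξ''⟩
      · obtain ⟨z, hz, hz'⟩ := hp.c1g _ _ h
        exact ⟨z, Finset.mem_insert_of_mem hz, hz'⟩
    · intro δ' η' h hA
      rcases Finset.mem_insert.1 h with h | h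
      · rw [(Prod.mk.inj h).1, (Prod.mk.inj h).2]
        exact Finset.mem_insert_self _ _
      · exact Finset.mem_insert_of_mem (hp.c1h _ _ h hA)
    · intro δ' η' a b h ho ha hb
      rcases Finset.mem_insert.1 h with h | h
      · rw [(Prod.mk.inj h).2] at hb
        exact absurd (hO _ _ _ ho) (not_lt.2 hb)
      · exact hp.c2 _ _ _ _ h ho ha hb
    · intro η' M h
      obtain ⟨z, hz, hz'⟩ := hp.c4g _ _ h
      exact ⟨z, Finset.mem_insert_of_mem hz, hz'⟩
    · intro η' M h δ' hδ' hS hA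
      exact Finset.mem_insert_of_mem (hp.c4h _ _ h _ hδ' hS hA)
    · intro a b c d h h' hlt
      rcases Finset.mem_insert.1 h with h | h <;> rcases Finset.mem_insert.1 h' with h' | h'
      · rw [(Prod.mk.inj h).1, (Prod.mk.inj h').1] at hlt
        exact absurd hlt (lt_irrefl _)
      · rw [(Prod.mk.inj h).1] at hlt
        exact absurd ((hg1 _ _ h').trans hlt) (lt_irrefl _)
      · rw [(Prod.mk.inj h').1]
        exact hg2 _ _ h
      · exact hp.c5 _ _ _ _ h h' hlt
  refine ⟨⟨_, hV⟩, ⟨η, hξ, Finset.mem_insert_self _ _⟩, ?_⟩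
  exact ⟨Finset.subset_insert _ _, Finset.subset_insert _ _, Finset.subset_insert _ _,
    subset_rfl, subset_rfl⟩

end FAP
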