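import Pool.Agent.Helper94.FAP.Base

open Set Cardinal

universe u v

namespace FAP

variable {A B : Type u} [LinearOrder A] [LinearOrder B]

theorem outcome (T : Setup A B) (Act : B → A → Prop) (bit : B → Bool) (G : Set (Pos T Act bit))
    (hG : IsFilter G)
    (h1 : ∀ δ ∈ SS B, ∀ η, (∃ a, a < η) → (G ∩ D1 T Act bit δ η).Nonempty)
    (h2 : ∀ δ ∈ SS B, ∀ ξ, (G ∩ D2 T Act bit δ ξ).Nonempty) :
    ∃ (g : A → A) (h : B → A → Bool) (E : B → Set A), (∀ δ ∈ SS B, ClubA (E δ)) ∧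
      ∀ δ ∈ SS B, ∀ η ∈ E δ, T.f δ η < g η ∧ (Act δ η → h (T.x δ η) η = bit δ) := by
  classical
  have hg : ∀ η, ∃ ξ, ∀ p ∈ G, ∀ ξ', (η, ξ') ∈ p.1.g → ξ' = ξ := by
    intro η
    by_cases hex : ∃ p ∈ G, ∃ ξ', (η, ξ') ∈ p.1.g
    · obtain ⟨p, hp, ξ, hξ⟩ := hex
      refine ⟨ξ, fun q hq ξ' hξ' => ?_⟩
      obtain ⟨r, -, hrp, hrq⟩ := hG.dir p hp q hq
      exact r.2.c0g η ξ' ξ (hrq.1 hξ') (hrp.1 hξ)
    · exact ⟨η, fun p hp ξ' hξ' => absurd ⟨p, hp, ξ', hξ'⟩ hex⟩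
  have hh : ∀ α η, ∃ b, ∀ p ∈ G, ∀ b', (α, η, b') ∈ p.1.h → b' = b := by
    intro α η
    by_cases hex : ∃ p ∈ G, ∃ b', (α, η, b') ∈ p.1.h
    · obtain ⟨p, hp, b, hb⟩ := hex
      refine ⟨b, fun q hq b' hb' => ?_⟩
      obtain ⟨r, -, hrp, hrq⟩ := hG.dir p hp q hq
      exact r.2.c0h α η b' b (hrq.2.1 hb') (hrp.2.1 hb)
    · exact ⟨false, fun p hp b' hb' => absurd ⟨p, hp, b', hb'⟩ hex⟩
  choose g hg using hg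
  choose h hh using hh
  refine ⟨g, h, fun δ => {η | ∃ p ∈ G, (δ, η) ∈ p.1.In}, ?_, ?_⟩
  · intro δ hδ
    refine ⟨?_, ?_⟩
    · intro a
      obtain ⟨p, hp, η, haη, hη⟩ := h2 δ hδ a
      exact ⟨η, ⟨p, hp, hη⟩, haη⟩
    · intro η hη hlim
      obtain ⟨p, hp, hp1 | ⟨a, b, hab, haη, hηb⟩⟩ := h1 δ hδ η hη
      · exact ⟨p, hp, hp1⟩
      · exfalso
        obtain ⟨b', ⟨q, hq, hqb⟩, hab', hb'η⟩ := hlim a haη
        obtain ⟨r, -, hrp, hrq⟩ := hG.dir p hp q hq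
        exact r.2.c2 δ b' a b (hrq.2.2.1 hqb) (hrp.2.2.2.1 hab) hab' (hb'η.le.trans hηb)
  · rintro δ hδ η ⟨p, hp, hη⟩
    obtain ⟨ξ, hξ, hf⟩ := p.2.c1g δ η hη
    refine ⟨?_, fun hact => ?_⟩
    · rw [← hg η p hp ξ hξ]
      exact hf
    · exact (hh _ _ p hp _ (p.2.c1h δ η hη hact)).symm

end FAP
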