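import Pool.Agent.Helper94.FAP.Base
import Pool.Agent.Helper94.FAP.F11b
import Pool.Agent.Helper94.FAP.F12
import Pool.Agent.Helper94.FAP.F14

open Set Cardinal

universe u v

namespace FAP

variable {A B : Type u} [LinearOrder A] [LinearOrder B]

/-- A filter for the poset gives the generic objects. -/
theorem fa_outcome_of_proper (hFA : FA.{u, v}) (T : Setup A B) (Act : B → A → Prop) (bit : B → Bool)
    (hproper : IsProper.{u, v} (Pos T Act bit)) :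
    ∃ (g : A → A) (h : B → A → Bool) (E : B → Set A), (∀ δ ∈ SS B, ClubA (E δ)) ∧
      ∀ δ ∈ SS B, ∀ η ∈ E δ, T.f δ η < g η ∧ (Act δ η → h (T.x δ η) η = bit δ) := by
  let ι : Type u := {y : B × A // y.1 ∈ SS B ∧ ∃ a, a < y.2} ⊕ {y : B × A // y.1 ∈ SS B}
  let D : ι → Set (Pos T Act bit) :=
    Sum.elim (fun y => D1 T Act bit y.1.1 y.1.2) (fun y => D2 T Act bit y.1.1 y.1.2)
  have hBA : #(B × A) ≤ ℵ_ 2 := by
    rw [mk_prod, lift_id, lift_id, T.cardA, T.cardB]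
    refine (mul_le_mul' le_rfl (aleph_le_aleph.2 one_le_two)).trans ?_
    rw [mul_eq_self (aleph0_le_aleph 2)]
  have hcard : #ι ≤ ℵ_ 2 := by
    have h1 : #ι ≤ ℵ_ 2 + ℵ_ 2 := by
      change #({y : B × A // y.1 ∈ SS B ∧ ∃ a, a < y.2} ⊕ {y : B × A // y.1 ∈ SS B}) ≤ _
      rw [mk_sum, lift_id, lift_id]
      exact add_le_add ((mk_subtype_le _).trans hBA) ((mk_subtype_le _).trans hBA)
    rwa [add_eq_self (aleph0_le_aleph 2)] at h1
  have hne : Nonempty (Pos T Act bit) :=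
    ⟨⟨⟨∅, ∅, ∅, ∅, ∅⟩, by constructor <;> simp⟩⟩
  obtain ⟨G, hG, hGD⟩ := hFA (Pos T Act bit) hne hproper (pos_cc T Act bit) ι D hcard (by
    rintro (⟨y, hy1, hy2⟩ | ⟨y, hy⟩)
    · exact D1_dense T Act bit y.1 hy1 y.2 hy2
    · exact D2_dense T Act bit y.1 hy y.2)
  exact outcome T Act bit G hG
    (fun δ hδ η hη => hGD (Sum.inl ⟨(δ, η), hδ, hη⟩))
    (fun δ hδ ξ => hGD (Sum.inr ⟨(δ, ξ), hδ⟩))

end FAP
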