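import Pool.Agent.Helper94.FAP.Base

/-!
# FAP: adding a model on top, and amalgamation
-/

open Set Cardinal

universe u v

namespace FAP

variable {A B : Type u} [LinearOrder A] [LinearOrder B]

theorem top_valid (T : Setup A B) (Act : B → A → Prop) (bit : B → Bool) (κ : A) (M : Set B)
    (hM : Suitable T.e κ M) (hfin : {δ | δ ∈ M ∧ δ ∈ SS B ∧ Act δ κ}.Finite)
    (p : Pre A B) (hp : Valid T Act bit p) (hb : Below κ M p) :
    ∃ q : Pre A B, Valid T Act bit q ∧ q ≤ p ∧ (κ, M) ∈ q.Mod := by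
  classical
  obtain ⟨ξ₀, hξ₀⟩ := exists_small T M hM.1
  obtain ⟨F, hF⟩ : ∃ F : Finset (B × A × Bool), ∀ y, y ∈ F ↔
      ∃ δ, (δ ∈ M ∧ δ ∈ SS B ∧ Act δ κ) ∧ (T.x δ κ, κ, bit δ) = y := by
    refine ⟨hfin.toFinset.image (fun δ => (T.x δ κ, κ, bit δ)), fun y => ?_⟩
    simp only [Finset.mem_image, Set.Finite.mem_toFinset, mem_ofPred_eq]
  have hxne : ∀ δ δ', δ ∈ M → δ' ∈ M → δ ∈ SS B → δ' ∈ SS B → T.x δ κ = T.x δ' κ →
      ¬ δ < δ' := by
    intro δ δ' h1 h2 h3 h4 h5 hlt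
    have h6 : δ ∈ RR T.e δ' κ := (hM.2 δ' h2 δ).1 ⟨h1, hlt⟩
    have h7 := T.x_ge δ' h4 κ δ h6
    have h8 := T.x_lt δ h3 κ
    rw [h5] at h8
    exact absurd h7 (not_le.2 h8)
  refine ⟨⟨insert (κ, ξ₀) p.g, p.h ∪ F, p.In, p.Out, insert (κ, M) p.Mod⟩, ?_, ?_, ?_⟩
  · constructor
    · -- c0g
      intro η ξ ξ' h h'
      rcases Finset.mem_insert.1 h with h | h <;> rcases Finset.mem_insert.1 h' with h' | h'
      · rw [(Prod.mk.inj h).2, (Prod.mk.inj h').2]
      · have := (hb.g _ _ h').1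
        rw [(Prod.mk.inj h).1] at this
        exact absurd this (lt_irrefl _)
      · have := (hb.g _ _ h).1
        rw [(Prod.mk.inj h').1] at this
        exact absurd this (lt_irrefl _)
      · exact hp.c0g _ _ _ h h'
    · -- c0h
      intro α η i i' h h'
      rcases Finset.mem_union.1 h with h | h <;> rcases Finset.mem_union.1 h' with h' | h'
      · exact hp.c0h _ _ _ _ h h'
      · obtain ⟨δ, -, he⟩ := (hF _).1 h'
        have h1 := (hb.h _ _ _ h).2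
        have h2 : κ = η := (Prod.mk.inj (Prod.mk.inj he).2).1
        rw [h2] at h1
        exact absurd h1 (lt_irrefl _)
      · obtain ⟨δ, -, he⟩ := (hF _).1 h
        have h1 := (hb.h _ _ _ h').2
        have h2 : κ = η := (Prod.mk.inj (Prod.mk.inj he).2).1
        rw [h2] at h1
        exact absurd h1 (lt_irrefl _)
      · obtain ⟨δ, ⟨d1, d2, -⟩, he⟩ := (hF _).1 h
        obtain ⟨δ', ⟨d1', d2', -⟩, he'⟩ := (hF _).1 h'
        have e1 : T.x δ κ = α := (Prod.mk.inj he).1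
        have e2 : T.x δ' κ = α := (Prod.mk.inj he').1
        have e3 : T.x δ κ = T.x δ' κ := e1.trans e2.symm
        have e4 : δ = δ' := by
          rcases lt_trichotomy δ δ' with h | h | h
          · exact absurd h (hxne δ δ' d1 d1' d2 d2' e3)
          · exact h
          · exact absurd h (hxne δ' δ d1' d1 d2' d2 e3.symm)
        have e5 : bit δ = i := (Prod.mk.inj (Prod.mk.inj he).2).2
        have e6 : bit δ' = i' := (Prod.mk.inj (Prod.mk.inj he').2).2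
        rw [← e5, ← e6, e4]
    · exact hp.c1S
    · -- c1g
      intro δ η h
      obtain ⟨ξ, h1, h2⟩ := hp.c1g δ η h
      exact ⟨ξ, Finset.mem_insert_of_mem h1, h2⟩
    · -- c1h
      intro δ η h hA
      exact Finset.mem_union_left _ (hp.c1h δ η h hA)
    · exact hp.c2
    · -- c3
      intro η N δ a b hN hδ hO h1 h2
      rcases Finset.mem_insert.1 hN with h | h
      · have h3 := (hb.Out _ _ _ hO).2.2
        rw [(Prod.mk.inj h).1] at h2
        exact absurd h3 (not_lt.2 h2)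
      · exact hp.c3 η N δ a b h hδ hO h1 h2
    · -- c4s
      intro η N hN
      rcases Finset.mem_insert.1 hN with h | h
      · rw [(Prod.mk.inj h).1, (Prod.mk.inj h).2]
        exact hM
      · exact hp.c4s η N h
    · -- c4g
      intro η N hN
      rcases Finset.mem_insert.1 hN with h | h
      · rw [(Prod.mk.inj h).1, (Prod.mk.inj h).2]
        exact ⟨ξ₀, Finset.mem_insert_self _ _, hξ₀⟩
      · obtain ⟨ξ, h1, h2⟩ := hp.c4g η N h
        exact ⟨ξ, Finset.mem_insert_of_mem h1, h2⟩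
    · -- c4h
      intro η N hN δ hδ hS hA
      rcases Finset.mem_insert.1 hN with h | h
      · have e1 : η = κ := (Prod.mk.inj h).1
        have e2 : N = M := (Prod.mk.inj h).2
        subst e1
        subst e2
        exact Finset.mem_union_right _ ((hF _).2 ⟨δ, ⟨hδ, hS, hA⟩, rfl⟩)
      · exact Finset.mem_union_left _ (hp.c4h η N h δ hδ hS hA)
    · -- c5
      intro η ξ ζ ξ' h h' hlt
      rcases Finset.mem_insert.1 h with h | h <;> rcases Finset.mem_insert.1 h' with h' | h'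
      · rw [(Prod.mk.inj h).1, (Prod.mk.inj h').1] at hlt
        exact absurd hlt (lt_irrefl _)
      · have := (hb.g _ _ h').1
        rw [(Prod.mk.inj h).1] at hlt
        exact absurd (hlt.trans this) (lt_irrefl _)
      · have := (hb.g _ _ h).2
        rw [(Prod.mk.inj h').1]
        exact this
      · exact hp.c5 _ _ _ _ h h' hlt
  · refine ⟨Finset.subset_insert _ _, Finset.subset_union_left, subset_rfl, subset_rfl,
      Finset.subset_insert _ _⟩
  · exact Finset.mem_insert_self _ _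

theorem amalg_valid (T : Setup A B) (Act : B → A → Prop) (bit : B → Bool) (κ : A) (M : Set B)
    (s r r' : Pre A B) (hr : Valid T Act bit r) (hr' : Valid T Act bit r')
    (hMod : (κ, M) ∈ r.Mod) (hb : Below κ M r') (hs : r' ≤ s)
    (hsg : ∀ η ξ, (η, ξ) ∈ r.g → η < κ → (η, ξ) ∈ s.g)
    (hsh : ∀ α η i, (α, η, i) ∈ r.h → α ∈ M → η < κ → (α, η, i) ∈ s.h)
    (hsIn : ∀ δ η, (δ, η) ∈ r.In → δ ∈ M → η < κ → (δ, η) ∈ s.In)
    (hsOut : ∀ δ a b, (δ, a, b) ∈ r.Out → δ ∈ M → a < κ → b < κ → (δ, a, b) ∈ s.Out)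
    (hrs : r ≤ s)
    (hout : ∀ η N δ a b, (η, N) ∈ r.Mod → (η, N) ∉ s.Mod → η < κ → δ ∈ N →
      (δ, a, b) ∈ r'.Out → (δ, a, b) ∉ s.Out → a < η → False) :
    Valid T Act bit (r.un r') := by
  obtain ⟨sg, sh, sIn, sOut, sMod⟩ := Pre.le_def.1 hs
  obtain ⟨-, -, -, rOut, -⟩ := Pre.le_def.1 hrs
  constructor
  · -- c0g
    intro η ξ ξ' h h'
    rcases Pre.mem_un_g.1 h with h | h <;> rcases Pre.mem_un_g.1 h' with h' | h'
    · exact hr.c0g _ _ _ h h'
    · exact hr'.c0g _ _ _ (sg (hsg _ _ h (hb.g _ _ h').1)) h'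
    · exact hr'.c0g _ _ _ h (sg (hsg _ _ h' (hb.g _ _ h).1))
    · exact hr'.c0g _ _ _ h h'
  · -- c0h
    intro α η i i' h h'
    rcases Pre.mem_un_h.1 h with h | h <;> rcases Pre.mem_un_h.1 h' with h' | h'
    · exact hr.c0h _ _ _ _ h h'
    · have h1 := hb.h _ _ _ h'
      exact hr'.c0h _ _ _ _ (sh (hsh _ _ _ h h1.1 h1.2)) h'
    · have h1 := hb.h _ _ _ h
      exact hr'.c0h _ _ _ _ h (sh (hsh _ _ _ h' h1.1 h1.2))
    · exact hr'.c0h _ _ _ _ h h'
  · -- c1S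
    intro δ η h
    rcases Pre.mem_un_In.1 h with h | h
    · exact hr.c1S δ η h
    · exact hr'.c1S δ η h
  · -- c1g
    intro δ η h
    rcases Pre.mem_un_In.1 h with h | h
    · obtain ⟨ξ, h1, h2⟩ := hr.c1g δ η h
      exact ⟨ξ, Pre.mem_un_g.2 (Or.inl h1), h2⟩
    · obtain ⟨ξ, h1, h2⟩ := hr'.c1g δ η h
      exact ⟨ξ, Pre.mem_un_g.2 (Or.inr h1), h2⟩
  · -- c1h
    intro δ η h hA
    rcases Pre.mem_un_In.1 h with h | h
    · exact Pre.mem_un_h.2 (Or.inl (hr.c1h δ η h hA))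
    · exact Pre.mem_un_h.2 (Or.inr (hr'.c1h δ η h hA))
  · -- c2
    intro δ η a b h h' h1 h2
    rcases Pre.mem_un_In.1 h with h | h <;> rcases Pre.mem_un_Out.1 h' with h' | h'
    · exact hr.c2 _ _ _ _ h h' h1 h2
    · obtain ⟨d1, -, d3⟩ := hb.Out _ _ _ h'
      exact hr'.c2 _ _ _ _ (sIn (hsIn _ _ h d1 (h2.trans_lt d3))) h' h1 h2
    · obtain ⟨d1, d2⟩ := hb.In _ _ h
      by_cases hbκ : b < κ
      · exact hr'.c2 _ _ _ _ h (sOut (hsOut _ _ _ h' d1 (h1.trans d2) hbκ)) h1 h2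
      · exact hr.c3 _ _ _ _ _ hMod d1 h' (h1.trans d2) (not_lt.1 hbκ)
    · exact hr'.c2 _ _ _ _ h h' h1 h2
  · -- c3
    intro η N δ a b hN hδ hO h1 h2
    rcases Pre.mem_un_Mod.1 hN with h | h <;> rcases Pre.mem_un_Out.1 hO with h' | h'
    · exact hr.c3 _ _ _ _ _ h hδ h' h1 h2
    · obtain ⟨-, -, d3⟩ := hb.Out _ _ _ h'
      by_cases hsm : (η, N) ∈ s.Mod
      · exact hr'.c3 _ _ _ _ _ (sMod hsm) hδ h' h1 h2
      · by_cases hso : (δ, a, b) ∈ s.Out
        · exact hr.c3 _ _ _ _ _ h hδ (rOut hso) h1 h2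
        · exact hout η N δ a b h hsm (h2.trans_lt d3) hδ h' hso h1
    · obtain ⟨d1, d2⟩ := hb.Mod _ _ h
      have hδM : δ ∈ M := d2 hδ
      by_cases hbκ : b < κ
      · exact hr'.c3 _ _ _ _ _ h hδ (sOut (hsOut _ _ _ h' hδM (h1.trans d1) hbκ)) h1 h2
      · exact hr.c3 _ _ _ _ _ hMod hδM h' (h1.trans d1) (not_lt.1 hbκ)
    · exact hr'.c3 _ _ _ _ _ h hδ h' h1 h2
  · -- c4s
    intro η N hN
    rcases Pre.mem_un_Mod.1 hN with h | h
    · exact hr.c4s η N h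
    · exact hr'.c4s η N h
  · -- c4g
    intro η N hN
    rcases Pre.mem_un_Mod.1 hN with h | h
    · obtain ⟨ξ, h1, h2⟩ := hr.c4g η N h
      exact ⟨ξ, Pre.mem_un_g.2 (Or.inl h1), h2⟩
    · obtain ⟨ξ, h1, h2⟩ := hr'.c4g η N h
      exact ⟨ξ, Pre.mem_un_g.2 (Or.inr h1), h2⟩
  · -- c4h
    intro η N hN δ hδ hS hA
    rcases Pre.mem_un_Mod.1 hN with h | h
    · exact Pre.mem_un_h.2 (Or.inl (hr.c4h η N h δ hδ hS hA))
    · exact Pre.mem_un_h.2 (Or.inr (hr'.c4h η N h δ hδ hS hA))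
  · -- c5
    intro η ξ ζ ξ' h h' hlt
    rcases Pre.mem_un_g.1 h with h | h <;> rcases Pre.mem_un_g.1 h' with h' | h'
    · exact hr.c5 _ _ _ _ h h' hlt
    · have d := (hb.g _ _ h').1
      exact hr'.c5 _ _ _ _ (sg (hsg _ _ h (hlt.trans d))) h' hlt
    · obtain ⟨d1, d2⟩ := hb.g _ _ h
      by_cases hζ : ζ < κ
      · exact hr'.c5 _ _ _ _ h (sg (hsg _ _ h' hζ)) hlt
      · exact d2.trans_le (not_lt.1 hζ)
    · exact hr'.c5 _ _ _ _ h h' hlt

end FAP
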