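import Pool.Agent.Helper94.FAP.Base

open Set Cardinal

universe u v

namespace FAP

section Closure

variable {α : Type u}

/-- The least superset of `S` closed under `G`. -/
def clo (G : Finset α → Set α) (S : Set α) : Set α :=
  ⋂₀ {K | S ⊆ K ∧ ∀ s : Finset α, (↑s : Set α) ⊆ K → G s ⊆ K}

theorem subset_clo (G : Finset α → Set α) (S : Set α) : S ⊆ clo G S := by
  intro x hx K hK
  exact hK.1 hx

theorem clo_closed (G : Finset α → Set α) (S : Set α) (s : Finset α)
    (hs : (↑s : Set α) ⊆ clo G S) : G s ⊆ clo G S := by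
  intro x hx K hK
  exact hK.2 s (fun y hy => hs hy K hK) hx

theorem clo_min (G : Finset α → Set α) {S K : Set α} (hS : S ⊆ K)
    (hK : ∀ s : Finset α, (↑s : Set α) ⊆ K → G s ⊆ K) : clo G S ⊆ K :=
  fun _ hx => hx K ⟨hS, hK⟩

theorem finset_subset_iUnion {c : ℕ → Set α} (hc : Monotone c) (s : Finset α)
    (hs : (↑s : Set α) ⊆ ⋃ n, c n) : ∃ n, (↑s : Set α) ⊆ c n := by
  classical
  induction s using Finset.induction_on with
  | empty => exact ⟨0, by simp⟩
  | insert a t _ ih =>
    rw [Finset.coe_insert, insert_subset_iff] at hs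
    obtain ⟨n, hn⟩ := ih hs.2
    obtain ⟨m, hm⟩ := mem_iUnion.mp hs.1
    refine ⟨max m n, ?_⟩
    rw [Finset.coe_insert, insert_subset_iff]
    exact ⟨hc (le_max_left m n) hm, hn.trans (hc (le_max_right m n))⟩

theorem iUnion_closed (G : Finset α → Set α) {c : ℕ → Set α} (hc : Monotone c)
    (h : ∀ n, ∀ s : Finset α, (↑s : Set α) ⊆ c n → G s ⊆ ⋃ m, c m) (s : Finset α)
    (hs : (↑s : Set α) ⊆ ⋃ n, c n) : G s ⊆ ⋃ n, c n := by
  obtain ⟨n, hn⟩ := finset_subset_iUnion hc s hs
  exact h n s hn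

theorem countable_finsets {K : Set α} (hK : K.Countable) :
    {s : Finset α | (↑s : Set α) ⊆ K}.Countable := by
  have h1 := Set.countable_ofPred_finite_subset hK
  have h2 := h1.preimage_of_injOn (f := fun s : Finset α => (↑s : Set α))
    (Finset.coe_injective.injOn)
  refine h2.mono ?_
  intro s hs
  exact ⟨s.finite_toSet, hs⟩

/-- The stages of the closure. -/
def stage (G : Finset α → Set α) (S : Set α) : ℕ → Set α
  | 0 => S
  | n + 1 => stage G S n ∪ ⋃ s ∈ {s : Finset α | (↑s : Set α) ⊆ stage G S n}, G s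

theorem stage_ctbl (G : Finset α → Set α) (hG : ∀ s, (G s).Countable) {S : Set α}
    (hS : S.Countable) (n : ℕ) : (stage G S n).Countable := by
  induction n with
  | zero => exact hS
  | succ n ih =>
    exact ih.union ((countable_finsets ih).biUnion fun s _ => hG s)

theorem stage_mono (G : Finset α → Set α) (S : Set α) : Monotone (stage G S) :=
  monotone_nat_of_le_succ fun _ => subset_union_left

theorem clo_ctbl (G : Finset α → Set α) (hG : ∀ s, (G s).Countable) {S : Set α}
    (hS : S.Countable) : (clo G S).Countable := by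
  have h1 : clo G S ⊆ ⋃ n, stage G S n := by
    apply clo_min
    · exact subset_iUnion (stage G S) 0
    · apply iUnion_closed G (stage_mono G S)
      intro n s hs
      refine subset_trans ?_ (subset_iUnion (stage G S) (n + 1))
      intro x hx
      right
      exact mem_biUnion (x := s) hs hx
  exact (countable_iUnion fun n => stage_ctbl G hG hS n).mono h1

end Closure

theorem club_of_closure {X : Type v} {Y : Type u} (G : Finset (X ⊕ Y) → Set (X ⊕ Y))
    (hG : ∀ s, (G s).Countable) :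
    ∃ C : Set (Set X), IsClubCtbl C ∧ ∀ M ∈ C, ∃ K : Set (X ⊕ Y), K.Countable ∧
      (∀ s : Finset (X ⊕ Y), (↑s : Set (X ⊕ Y)) ⊆ K → G s ⊆ K) ∧ ∀ x, x ∈ M ↔ Sum.inl x ∈ K := by
  refine ⟨{M | M.Countable ∧ ∀ x, (Sum.inl x : X ⊕ Y) ∈ clo G (Sum.inl '' M) → x ∈ M},
    ⟨fun M hM => hM.1, ?_, ?_⟩, ?_⟩
  · intro N hN
    refine ⟨{x | (Sum.inl x : X ⊕ Y) ∈ clo G (Sum.inl '' N)}, ⟨?_, ?_⟩, ?_⟩
    · have h1 := clo_ctbl G hG (hN.image Sum.inl)
      exact h1.preimage_of_injOn (f := (Sum.inl : X → X ⊕ Y)) Sum.inl_injective.injOn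
    · intro x hx
      have h2 : clo G (Sum.inl '' {x | (Sum.inl x : X ⊕ Y) ∈ clo G (Sum.inl '' N)}) ⊆
          clo G (Sum.inl '' N) := by
        apply clo_min
        · rintro _ ⟨y, hy, rfl⟩
          exact hy
        · exact clo_closed G _
      exact h2 hx
    · intro x hx
      exact subset_clo G _ (mem_image_of_mem _ hx)
  · intro c hc hcC
    refine ⟨countable_iUnion fun n => (hcC n).1, ?_⟩
    intro x hx
    have hmono : Monotone (fun n => clo G ((Sum.inl : X → X ⊕ Y) '' (c n))) := by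
      intro m n hmn
      apply clo_min
      · exact (image_mono (hc hmn)).trans (subset_clo G _)
      · exact clo_closed G _
    have h1 : clo G ((Sum.inl : X → X ⊕ Y) '' (⋃ n, c n)) ⊆
        ⋃ n, clo G ((Sum.inl : X → X ⊕ Y) '' (c n)) := by
      apply clo_min
      · rintro _ ⟨y, hy, rfl⟩
        obtain ⟨n, hn⟩ := mem_iUnion.mp hy
        exact mem_iUnion.mpr ⟨n, subset_clo G _ (mem_image_of_mem _ hn)⟩
      · apply iUnion_closed G hmono
        intro n s hs
        exact (clo_closed G _ s hs).trans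
          (subset_iUnion (fun n => clo G ((Sum.inl : X → X ⊕ Y) '' (c n))) n)
    obtain ⟨n, hn⟩ := mem_iUnion.mp (h1 hx)
    exact mem_iUnion.mpr ⟨n, (hcC n).2 x hn⟩
  · intro M hM
    refine ⟨clo G (Sum.inl '' M), clo_ctbl G hG (hM.1.image _), clo_closed G _, ?_⟩
    intro x
    exact ⟨fun hx => subset_clo G _ (mem_image_of_mem _ hx), hM.2 x⟩

end FAP
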