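import Pool.Agent.Helper94.FAP.Base
import Pool.Agent.Helper94.FAP.F6

open Set Cardinal

universe u v w

namespace FAP

theorem ctbl_finsets {α : Type u} (S : Set α) (hS : S.Countable) :
    {t : Finset α | ∀ y ∈ t, y ∈ S}.Countable := by
  have h1 := Set.countable_ofPred_finite_subset hS
  refine (h1.preimage_of_injOn (f := fun t : Finset α => (t : Set α)) ?_).mono ?_
  · exact Finset.coe_injective.injOn
  · intro t ht
    exact ⟨t.finite_toSet, fun y hy => ht y hy⟩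

theorem finset_biUnion_ctbl {α : Type w} {β : Type v} (t : Finset α) (F : α → Set β)
    (hF : ∀ y ∈ t, (F y).Countable) : (⋃ y ∈ t, F y).Countable := by
  have := (t.countable_toSet).biUnion (t := fun y _ => F y) (fun y hy => hF y hy)
  exact this

section

variable {A B : Type u}

/-- The points of `A` which occur in a raw condition. -/
def occA (p : Pre A B) : Set A :=
  ((⋃ y ∈ p.g, {y.1, y.2}) ∪ (⋃ y ∈ p.h, {y.2.1}) ∪ (⋃ y ∈ p.In, {y.2})) ∪
    ((⋃ y ∈ p.Out, {y.2.1, y.2.2}) ∪ (⋃ y ∈ p.Mod, {y.1}))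

/-- The points of `B` which occur in a raw condition. -/
def occB (p : Pre A B) : Set B :=
  ((⋃ y ∈ p.h, {y.1}) ∪ (⋃ y ∈ p.In, {y.1})) ∪
    ((⋃ y ∈ p.Out, {y.1}) ∪ (⋃ y ∈ p.Mod, y.2))

theorem occA_ctbl (p : Pre A B) : (occA p).Countable := by
  refine Countable.union (Countable.union (Countable.union ?_ ?_) ?_) (Countable.union ?_ ?_) <;>
  · apply finset_biUnion_ctbl
    intro y _
    exact (Set.toFinite _).countable

/-- Raw conditions built from given countable sets. -/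
def builtFrom (SA : Set A) (SB : Set B) (SM : Set (A × Set B)) : Set (Pre A B) :=
  {p : Pre A B | (∀ y ∈ p.g, y ∈ SA ×ˢ SA) ∧ (∀ y ∈ p.h, y ∈ SB ×ˢ (SA ×ˢ (univ : Set Bool))) ∧
      (∀ y ∈ p.In, y ∈ SB ×ˢ SA) ∧ (∀ y ∈ p.Out, y ∈ SB ×ˢ (SA ×ˢ SA)) ∧
      (∀ y ∈ p.Mod, y ∈ SM)}

theorem ctbl_pre (SA : Set A) (SB : Set B) (SM : Set (A × Set B)) (hA : SA.Countable)
    (hB : SB.Countable) (hM : SM.Countable) : (builtFrom SA SB SM).Countable := by
  have h1 := ctbl_finsets (SA ×ˢ SA) (hA.prod hA)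
  have h2 := ctbl_finsets (SB ×ˢ (SA ×ˢ (univ : Set Bool)))
    (hB.prod (hA.prod (Set.toFinite _).countable))
  have h3 := ctbl_finsets (SB ×ˢ SA) (hB.prod hA)
  have h4 := ctbl_finsets (SB ×ˢ (SA ×ˢ SA)) (hB.prod (hA.prod hA))
  have h5 := ctbl_finsets SM hM
  have h6 := h1.prod (h2.prod (h3.prod (h4.prod h5)))
  refine (h6.preimage_of_injOn (f := fun p : Pre A B => (p.g, p.h, p.In, p.Out, p.Mod)) ?_).mono ?_
  · intro p _ q _ hpq
    simp only [Prod.mk.injEq] at hpq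
    exact Pre.ext hpq.1 hpq.2.1 hpq.2.2.1 hpq.2.2.2.1 hpq.2.2.2.2
  · rintro p ⟨a, b, c, d, e⟩
    exact ⟨a, b, c, d, e⟩

end

section

variable {A B : Type u} [LinearOrder A] [LinearOrder B]

theorem occB_ctbl (T : Setup A B) (Act : B → A → Prop) (bit : B → Bool) (p : Pos T Act bit) :
    (occB p.1).Countable := by
  refine Countable.union (Countable.union ?_ ?_) (Countable.union ?_ ?_)
  · apply finset_biUnion_ctbl
    intro y _
    exact (Set.toFinite _).countable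
  · apply finset_biUnion_ctbl
    intro y _
    exact (Set.toFinite _).countable
  · apply finset_biUnion_ctbl
    intro y _
    exact (Set.toFinite _).countable
  · apply finset_biUnion_ctbl
    intro y hy
    exact (p.2.c4s y.1 y.2 hy).1

/-- The points of `A` which have to be added. -/
def GA (T : Setup A B) (Act : B → A → Prop) (bit : B → Bool) (nx : B → A → A)
    (lam : ℕ → ℕ → A → A) (idx : B → B → A) (a0 : A)
    (SX : Set (Pos T Act bit)) (SA : Set A) (SB : Set B) : Set A :=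
  (({a0} ∪ ⋃ a ∈ SA, Iio a) ∪ ((⋃ γ ∈ SB, ⋃ β ∈ SB, {idx γ β}) ∪ (⋃ δ ∈ SB, ⋃ a ∈ SA, {nx δ a})))
    ∪ ((⋃ p ∈ SX, occA p.1) ∪ (⋃ k : ℕ, ⋃ m : ℕ, ⋃ ξ ∈ SA, {lam k m ξ}))

/-- The points of `B` which have to be added. -/
def GB (T : Setup A B) (Act : B → A → Prop) (bit : B → Bool)
    (WW : Set (Pos T Act bit) → Pos T Act bit → A → Set B)
    (SX : Set (Pos T Act bit)) (SJ : Set (Set (Pos T Act bit))) (SA : Set A) (SB : Set B) : Set B :=
  ((⋃ γ ∈ SB, ⋃ ξ ∈ SA, {T.e γ ξ, T.x γ ξ}) ∪ (⋃ p ∈ SX, occB p.1)) ∪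
    (⋃ D ∈ SJ, ⋃ p ∈ SX, ⋃ ρ ∈ SA, WW D p ρ)

/-- The conditions which have to be added. -/
def GP (T : Setup A B) (Act : B → A → Prop) (bit : B → Bool)
    (rr : Set (Pos T Act bit) → Pos T Act bit → A → A → Pos T Act bit)
    (SX : Set (Pos T Act bit)) (SJ : Set (Set (Pos T Act bit))) (SA : Set A) (SB : Set B) :
    Set (Pos T Act bit) :=
  {q | q.1 ∈ builtFrom SA SB (⋃ p ∈ SX, {y | y ∈ p.1.Mod})} ∪
    (⋃ D ∈ SJ, ⋃ p ∈ SX, ⋃ ρ ∈ SA, ⋃ ζ ∈ SA, {rr D p ρ ζ})

theorem GA_ctbl (T : Setup A B) (Act : B → A → Prop) (bit : B → Bool) (nx : B → A → A)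
    (lam : ℕ → ℕ → A → A) (idx : B → B → A) (a0 : A)
    (SX : Set (Pos T Act bit)) (SA : Set A) (SB : Set B) (hX : SX.Countable) (hA : SA.Countable)
    (hB : SB.Countable) : (GA T Act bit nx lam idx a0 SX SA SB).Countable := by
  refine Countable.union (Countable.union (Countable.union ?_ ?_) (Countable.union ?_ ?_))
    (Countable.union ?_ ?_)
  · exact countable_singleton _
  · exact hA.biUnion (fun a _ => T.ctA a)
  · exact hB.biUnion (fun γ _ => hB.biUnion (fun β _ => countable_singleton _))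
  · exact hB.biUnion (fun γ _ => hA.biUnion (fun β _ => countable_singleton _))
  · exact hX.biUnion (fun p _ => occA_ctbl p.1)
  · exact countable_iUnion (fun k => countable_iUnion (fun m =>
      hA.biUnion (fun a _ => countable_singleton _)))

theorem GB_ctbl (T : Setup A B) (Act : B → A → Prop) (bit : B → Bool)
    (WW : Set (Pos T Act bit) → Pos T Act bit → A → Set B)
    (hWW : ∀ D s ρ, (WW D s ρ).Countable)
    (SX : Set (Pos T Act bit)) (SJ : Set (Set (Pos T Act bit))) (SA : Set A) (SB : Set B)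
    (hX : SX.Countable) (hJ : SJ.Countable) (hA : SA.Countable)
    (hB : SB.Countable) : (GB T Act bit WW SX SJ SA SB).Countable := by
  refine Countable.union (Countable.union ?_ ?_) ?_
  · exact hB.biUnion (fun γ _ => hA.biUnion (fun ξ _ => (Set.toFinite _).countable))
  · exact hX.biUnion (fun p _ => occB_ctbl T Act bit p)
  · exact hJ.biUnion (fun D _ => hX.biUnion (fun p _ => hA.biUnion (fun ρ _ => hWW D p ρ)))

theorem GP_ctbl (T : Setup A B) (Act : B → A → Prop) (bit : B → Bool)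
    (rr : Set (Pos T Act bit) → Pos T Act bit → A → A → Pos T Act bit)
    (SX : Set (Pos T Act bit)) (SJ : Set (Set (Pos T Act bit))) (SA : Set A) (SB : Set B)
    (hX : SX.Countable) (hJ : SJ.Countable) (hA : SA.Countable)
    (hB : SB.Countable) : (GP T Act bit rr SX SJ SA SB).Countable := by
  refine Countable.union ?_ ?_
  · have h := ctbl_pre SA SB (⋃ p ∈ SX, {y | y ∈ p.1.Mod}) hA hB
      (hX.biUnion (fun p _ => p.1.Mod.countable_toSet))
    exact h.preimage_of_injOn (f := fun q : Pos T Act bit => q.1)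
      (fun q _ q' _ hqq => Subtype.ext hqq)
  · exact hJ.biUnion (fun D _ => hX.biUnion (fun p _ => hA.biUnion (fun ρ _ =>
      hA.biUnion (fun ζ _ => countable_singleton _))))

theorem trace_club (T : Setup A B) (Act : B → A → Prop) (bit : B → Bool) {X : Type v}
    (i : Pos T Act bit → X) (j : Set (Pos T Act bit) → X) (hi : Function.Injective i)
    (hj : Function.Injective j) (nx : B → A → A)
    (rr : Set (Pos T Act bit) → Pos T Act bit → A → A → Pos T Act bit)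
    (WW : Set (Pos T Act bit) → Pos T Act bit → A → Set B)
    (hWW : ∀ D s ρ, (WW D s ρ).Countable) (lam : ℕ → ℕ → A → A) :
    ∃ C : Set (Set X), IsClubCtbl C ∧ ∀ M ∈ C, ∃ (κ : A) (N : Set B),
      Trace T Act bit i j nx rr WW lam M κ N := by
  classical
  have hidx : ∀ γ β : B, ∃ ξ : A, β < γ → T.e γ ξ = β := by
    intro γ β
    by_cases h : β < γ
    · obtain ⟨ξ, hξ⟩ := T.e_surj γ β h
      exact ⟨ξ, fun _ => hξ⟩
    · obtain ⟨a, -⟩ := ctbl_bdd T ∅ countable_empty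
      exact ⟨a, fun h' => absurd h' h⟩
  choose idx hidx using hidx
  obtain ⟨a0, -⟩ := ctbl_bdd T ∅ countable_empty
  let zX : X → X ⊕ (A ⊕ B) := Sum.inl
  let zA : A → X ⊕ (A ⊕ B) := fun a => Sum.inr (Sum.inl a)
  let zB : B → X ⊕ (A ⊕ B) := fun b => Sum.inr (Sum.inr b)
  have zXi : Function.Injective zX := Sum.inl_injective
  have zAi : Function.Injective zA := Sum.inr_injective.comp Sum.inl_injective
  have zBi : Function.Injective zB := Sum.inr_injective.comp Sum.inr_injective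
  let SX : Set (X ⊕ (A ⊕ B)) → Set (Pos T Act bit) := fun s => (fun p => zX (i p)) ⁻¹' s
  let SJ : Set (X ⊕ (A ⊕ B)) → Set (Set (Pos T Act bit)) := fun s => (fun D => zX (j D)) ⁻¹' s
  let SA : Set (X ⊕ (A ⊕ B)) → Set A := fun s => zA ⁻¹' s
  let SB : Set (X ⊕ (A ⊕ B)) → Set B := fun s => zB ⁻¹' s
  have hSX : ∀ s : Set (X ⊕ (A ⊕ B)), s.Countable → (SX s).Countable := fun s hs =>
    hs.preimage (zXi.comp hi)
  have hSJ : ∀ s : Set (X ⊕ (A ⊕ B)), s.Countable → (SJ s).Countable := fun s hs =>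
    hs.preimage (zXi.comp hj)
  have hSA : ∀ s : Set (X ⊕ (A ⊕ B)), s.Countable → (SA s).Countable := fun s hs =>
    hs.preimage zAi
  have hSB : ∀ s : Set (X ⊕ (A ⊕ B)), s.Countable → (SB s).Countable := fun s hs =>
    hs.preimage zBi
  let G : Finset (X ⊕ (A ⊕ B)) → Set (X ⊕ (A ⊕ B)) := fun s =>
    ((fun q => zX (i q)) '' (GP T Act bit rr (SX s) (SJ s) (SA s) (SB s))) ∪
    ((zA '' (GA T Act bit nx lam idx a0 (SX s) (SA s) (SB s))) ∪
      (zB '' (GB T Act bit WW (SX s) (SJ s) (SA s) (SB s))))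
  have hG : ∀ s, (G s).Countable := by
    intro s
    have hs := s.countable_toSet
    refine Countable.union ?_ (Countable.union ?_ ?_)
    · exact (GP_ctbl T Act bit rr _ _ _ _ (hSX _ hs) (hSJ _ hs) (hSA _ hs) (hSB _ hs)).image _
    · exact (GA_ctbl T Act bit nx lam idx a0 _ _ _ (hSX _ hs) (hSA _ hs) (hSB _ hs)).image _
    · exact (GB_ctbl T Act bit WW hWW _ _ _ _ (hSX _ hs) (hSJ _ hs) (hSA _ hs) (hSB _ hs)).image _
  obtain ⟨C, hC, hCM⟩ := club_of_closure G hG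
  refine ⟨C, hC, ?_⟩
  intro M hM
  obtain ⟨K, hKc, hK, hKM⟩ := hCM M hM
  have hKA : ∀ (s : Finset (X ⊕ (A ⊕ B))), (↑s : Set (X ⊕ (A ⊕ B))) ⊆ K →
      ∀ a ∈ GA T Act bit nx lam idx a0 (SX s) (SA s) (SB s), zA a ∈ K := by
    intro s hs a ha
    exact hK s hs (Or.inr (Or.inl ⟨a, ha, rfl⟩))
  have hKB : ∀ (s : Finset (X ⊕ (A ⊕ B))), (↑s : Set (X ⊕ (A ⊕ B))) ⊆ K →
      ∀ b ∈ GB T Act bit WW (SX s) (SJ s) (SA s) (SB s), zB b ∈ K := by
    intro s hs a ha
    exact hK s hs (Or.inr (Or.inr ⟨a, ha, rfl⟩))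
  have hKP : ∀ (s : Finset (X ⊕ (A ⊕ B))), (↑s : Set (X ⊕ (A ⊕ B))) ⊆ K →
      ∀ q ∈ GP T Act bit rr (SX s) (SJ s) (SA s) (SB s), zX (i q) ∈ K := by
    intro s hs q hq
    exact hK s hs (Or.inl ⟨q, hq, rfl⟩)
  have ms : ∀ w : X ⊕ (A ⊕ B), w ∈ (↑({w} : Finset (X ⊕ (A ⊕ B))) : Set (X ⊕ (A ⊕ B))) := by
    intro w
    simp
  have ms1 : ∀ w w' : X ⊕ (A ⊕ B),
      w ∈ (↑({w, w'} : Finset (X ⊕ (A ⊕ B))) : Set (X ⊕ (A ⊕ B))) := by
    intro w w'
    simp
  have ms2 : ∀ w w' : X ⊕ (A ⊕ B),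
      w' ∈ (↑({w, w'} : Finset (X ⊕ (A ⊕ B))) : Set (X ⊕ (A ⊕ B))) := by
    intro w w'
    simp
  have hdown : ∀ a, zA a ∈ K → ∀ b < a, zA b ∈ K := by
    intro a ha b hb
    refine hKA {zA a} (by simpa using ha) b ?_
    refine Or.inl (Or.inl (Or.inr ?_))
    exact mem_biUnion (x := a) (ms (zA a)) hb
  have ha0 : zA a0 ∈ K := hKA ∅ (by simp) a0 (Or.inl (Or.inl (Or.inl rfl)))
  -- the height
  have hex : ∃ κ : A, ∀ a, a < κ ↔ zA a ∈ K := by
    have hne : {a : A | zA a ∉ K}.Nonempty := by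
      obtain ⟨a, ha⟩ := ctbl_bdd T (zA ⁻¹' K) (hKc.preimage zAi)
      exact ⟨a, fun h => lt_irrefl _ (ha a h)⟩
    refine ⟨T.wfA.wf.min _ hne, fun a => ⟨?_, ?_⟩⟩
    · intro ha
      by_contra hcon
      exact T.wfA.wf.not_lt_min _ hcon ha
    · intro ha
      by_contra hcon
      rw [not_lt] at hcon
      have hmin := T.wfA.wf.min_mem _ hne
      rcases hcon.lt_or_eq with hlt | heq
      · exact hmin (hdown a ha _ hlt)
      · exact hmin (heq ▸ ha)
  obtain ⟨κ, hκ⟩ := hex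
  refine ⟨κ, zB ⁻¹' K, ?_⟩
  have hb : ∀ (p : Pos T Act bit), i p ∈ M → zX (i p) ∈ K := fun p hp => (hKM _).1 hp
  have occA_mem : ∀ p : Pos T Act bit, i p ∈ M → ∀ a ∈ occA p.1, a < κ := by
    intro p hp a ha
    rw [hκ]
    refine hKA {zX (i p)} (by simpa using hb p hp) a ?_
    refine Or.inr (Or.inl ?_)
    exact mem_biUnion (x := p) (ms (zX (i p))) ha
  have occB_mem : ∀ p : Pos T Act bit, i p ∈ M → ∀ b ∈ occB p.1, zB b ∈ K := by
    intro p hp b hb'
    refine hKB {zX (i p)} (by simpa using hb p hp) b ?_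
    refine Or.inl (Or.inr ?_)
    exact mem_biUnion (x := p) (ms (zX (i p))) hb'
  have hBA : ∀ δ ∈ zB ⁻¹' K, ∀ a < κ, (zB δ ∈ ({zB δ, zA a} : Finset (X ⊕ (A ⊕ B))) ∧
      zA a ∈ ({zB δ, zA a} : Finset (X ⊕ (A ⊕ B)))) ∧
      ((({zB δ, zA a} : Finset (X ⊕ (A ⊕ B))) : Set (X ⊕ (A ⊕ B))) ⊆ K) := by
    intro δ hδ a ha
    refine ⟨⟨by simp, by simp⟩, ?_⟩
    intro w hw
    simp only [Finset.coe_insert, Finset.coe_singleton, mem_insert_iff, mem_singleton_iff] at hw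
    rcases hw with rfl | rfl
    · exact hδ
    · exact (hκ a).1 ha
  have hex : ∀ δ ∈ zB ⁻¹' K, ∀ a < κ, T.e δ a ∈ zB ⁻¹' K ∧ T.x δ a ∈ zB ⁻¹' K := by
    intro δ hδ a ha
    obtain ⟨⟨h1, h2⟩, h3⟩ := hBA δ hδ a ha
    refine ⟨hKB _ h3 _ (Or.inl (Or.inl ?_)), hKB _ h3 _ (Or.inl (Or.inl ?_))⟩
    · exact mem_biUnion (x := δ) h1 (mem_biUnion (x := a) h2 (by simp))
    · exact mem_biUnion (x := δ) h1 (mem_biUnion (x := a) h2 (by simp))
  have hidxK : ∀ γ ∈ zB ⁻¹' K, ∀ β ∈ zB ⁻¹' K, idx γ β < κ := by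
    intro γ hγ β hβ
    rw [hκ]
    refine hKA {zB γ, zB β} ?_ _ (Or.inl (Or.inr (Or.inl ?_)))
    · intro w hw
      simp only [Finset.coe_insert, Finset.coe_singleton, mem_insert_iff, mem_singleton_iff] at hw
      rcases hw with rfl | rfl
      · exact hγ
      · exact hβ
    · exact mem_biUnion (x := γ) (ms1 (zB γ) (zB β)) (mem_biUnion (x := β) (ms2 (zB γ) (zB β)) rfl)
  have h4 : ∀ (D : Set (Pos T Act bit)) (s : Pos T Act bit) (ρ ζ : A), j D ∈ M → i s ∈ M →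
      ρ < κ → ζ < κ → ∃ F : Finset (X ⊕ (A ⊕ B)), (F : Set (X ⊕ (A ⊕ B))) ⊆ K ∧ zX (j D) ∈ F ∧
        zX (i s) ∈ F ∧ zA ρ ∈ F ∧ zA ζ ∈ F := by
    intro D s ρ ζ hD hs hρ hζ
    refine ⟨{zX (j D), zX (i s), zA ρ, zA ζ}, ?_, by simp, by simp, by simp, by simp⟩
    intro w hw
    simp only [Finset.coe_insert, Finset.coe_singleton, mem_insert_iff, mem_singleton_iff] at hw
    rcases hw with rfl | rfl | rfl | rfl
    · exact (hKM _).1 hD
    · exact (hKM _).1 hs
    · exact (hκ _).1 hρ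
    · exact (hκ _).1 hζ
  refine ⟨?_, ⟨a0, (hκ a0).2 ha0⟩, ?_, ?_, ?_, ?_, ?_, ?_, ?_⟩
  · -- suitable
    refine ⟨hKc.preimage zBi, ?_⟩
    intro γ hγ β
    constructor
    · rintro ⟨hβ, hβγ⟩
      exact ⟨hβγ, idx γ β, hidxK γ hγ β hβ, hidx γ β hβγ⟩
    · rintro ⟨hβγ, ξ, hξ, rfl⟩
      exact ⟨(hex γ hγ ξ hξ).1, hβγ⟩
  · -- nx
    intro δ hδ a ha
    obtain ⟨⟨h1, h2⟩, h3⟩ := hBA δ hδ a ha
    rw [hκ]
    refine hKA _ h3 _ (Or.inl (Or.inr (Or.inr ?_)))
    exact mem_biUnion (x := δ) h1 (mem_biUnion (x := a) h2 rfl)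
  · -- x
    intro δ hδ η hη
    exact (hex δ hδ η hη).2
  · -- below
    intro p hp
    refine ⟨?_, ?_, ?_, ?_, ?_⟩
    · intro η ξ hy
      refine ⟨occA_mem p hp _ (Or.inl (Or.inl (Or.inl ?_))),
        occA_mem p hp _ (Or.inl (Or.inl (Or.inl ?_)))⟩
      · exact mem_biUnion (x := (η, ξ)) hy (by simp)
      · exact mem_biUnion (x := (η, ξ)) hy (by simp)
    · intro α η b hy
      refine ⟨occB_mem p hp _ (Or.inl (Or.inl ?_)), occA_mem p hp _ (Or.inl (Or.inl (Or.inr ?_)))⟩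
      · exact mem_biUnion (x := (α, η, b)) hy (by simp)
      · exact mem_biUnion (x := (α, η, b)) hy (by simp)
    · intro δ η hy
      refine ⟨occB_mem p hp _ (Or.inl (Or.inr ?_)), occA_mem p hp _ (Or.inl (Or.inr ?_))⟩
      · exact mem_biUnion (x := (δ, η)) hy (by simp)
      · exact mem_biUnion (x := (δ, η)) hy (by simp)
    · intro δ a b hy
      refine ⟨occB_mem p hp _ (Or.inr (Or.inl ?_)), occA_mem p hp _ (Or.inr (Or.inl ?_)),
        occA_mem p hp _ (Or.inr (Or.inl ?_))⟩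
      · exact mem_biUnion (x := (δ, a, b)) hy (by simp)
      · exact mem_biUnion (x := (δ, a, b)) hy (by simp)
      · exact mem_biUnion (x := (δ, a, b)) hy (by simp)
    · intro η N hy
      refine ⟨occA_mem p hp _ (Or.inr (Or.inr ?_)), fun b hbN => occB_mem p hp _ (Or.inr (Or.inr ?_))⟩
      · exact mem_biUnion (x := (η, N)) hy (by simp)
      · exact mem_biUnion (x := (η, N)) hy hbN
  · -- build
    intro q hq hmod
    have hch : ∀ y : A × Set B, ∃ p : Pos T Act bit, y ∈ q.1.Mod → (i p ∈ M ∧ y ∈ p.1.Mod) := by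
      intro y
      by_cases hy : y ∈ q.1.Mod
      · obtain ⟨p, hp⟩ := hmod y hy
        exact ⟨p, fun _ => hp⟩
      · exact ⟨q, fun h => absurd h hy⟩
    choose P hP using hch
    rw [hKM]
    let s : Finset (X ⊕ (A ⊕ B)) :=
      (q.1.g.image (fun y => zA y.1) ∪ q.1.g.image (fun y => zA y.2)) ∪
      ((q.1.h.image (fun y => zB y.1) ∪ q.1.h.image (fun y => zA y.2.1)) ∪
      ((q.1.In.image (fun y => zB y.1) ∪ q.1.In.image (fun y => zA y.2)) ∪
      ((q.1.Out.image (fun y => zB y.1) ∪ (q.1.Out.image (fun y => zA y.2.1) ∪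
        q.1.Out.image (fun y => zA y.2.2))) ∪
      q.1.Mod.image (fun y => zX (i (P y))))))
    refine hKP s ?_ q (Or.inl ?_)
    · intro w hw
      simp only [s, Finset.coe_union, Finset.coe_image, mem_union, mem_image, Finset.mem_coe] at hw
      rcases hw with (⟨y, hy, rfl⟩ | ⟨y, hy, rfl⟩) | ((⟨y, hy, rfl⟩ | ⟨y, hy, rfl⟩) |
        ((⟨y, hy, rfl⟩ | ⟨y, hy, rfl⟩) | ((⟨y, hy, rfl⟩ | (⟨y, hy, rfl⟩ | ⟨y, hy, rfl⟩)) |
        ⟨y, hy, rfl⟩)))
      · exact (hκ _).1 (hq.g y.1 y.2 hy).1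
      · exact (hκ _).1 (hq.g y.1 y.2 hy).2
      · exact (hq.h y.1 y.2.1 y.2.2 hy).1
      · exact (hκ _).1 (hq.h y.1 y.2.1 y.2.2 hy).2
      · exact (hq.In y.1 y.2 hy).1
      · exact (hκ _).1 (hq.In y.1 y.2 hy).2
      · exact (hq.Out y.1 y.2.1 y.2.2 hy).1
      · exact (hκ _).1 (hq.Out y.1 y.2.1 y.2.2 hy).2.1
      · exact (hκ _).1 (hq.Out y.1 y.2.1 y.2.2 hy).2.2
      · exact (hKM _).1 (hP y hy).1
    · have m1 : ∀ w : X ⊕ (A ⊕ B), w ∈ s → w ∈ (↑s : Set (X ⊕ (A ⊕ B))) := fun w hw => hw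
      refine ⟨?_, ?_, ?_, ?_, ?_⟩
      · intro y hy
        refine ⟨m1 (zA y.1) ?_, m1 (zA y.2) ?_⟩
        · exact Finset.mem_union_left _ (Finset.mem_union_left _ (Finset.mem_image_of_mem _ hy))
        · exact Finset.mem_union_left _ (Finset.mem_union_right _ (Finset.mem_image_of_mem _ hy))
      · intro y hy
        refine ⟨m1 (zB y.1) ?_, m1 (zA y.2.1) ?_, trivial⟩
        · exact Finset.mem_union_right _ (Finset.mem_union_left _
            (Finset.mem_union_left _ (Finset.mem_image_of_mem _ hy)))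
        · exact Finset.mem_union_right _ (Finset.mem_union_left _
            (Finset.mem_union_right _ (Finset.mem_image_of_mem _ hy)))
      · intro y hy
        refine ⟨m1 (zB y.1) ?_, m1 (zA y.2) ?_⟩
        · exact Finset.mem_union_right _ (Finset.mem_union_right _ (Finset.mem_union_left _
            (Finset.mem_union_left _ (Finset.mem_image_of_mem _ hy))))
        · exact Finset.mem_union_right _ (Finset.mem_union_right _ (Finset.mem_union_left _
            (Finset.mem_union_right _ (Finset.mem_image_of_mem _ hy))))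
      · intro y hy
        refine ⟨m1 (zB y.1) ?_, m1 (zA y.2.1) ?_, m1 (zA y.2.2) ?_⟩
        · exact Finset.mem_union_right _ (Finset.mem_union_right _ (Finset.mem_union_right _
            (Finset.mem_union_left _ (Finset.mem_union_left _ (Finset.mem_image_of_mem _ hy)))))
        · exact Finset.mem_union_right _ (Finset.mem_union_right _ (Finset.mem_union_right _
            (Finset.mem_union_left _ (Finset.mem_union_right _ (Finset.mem_union_left _
              (Finset.mem_image_of_mem _ hy))))))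
        · exact Finset.mem_union_right _ (Finset.mem_union_right _ (Finset.mem_union_right _
            (Finset.mem_union_left _ (Finset.mem_union_right _ (Finset.mem_union_right _
              (Finset.mem_image_of_mem _ hy))))))
      · intro y hy
        refine mem_biUnion (x := P y) (m1 (zX (i (P y))) ?_) (hP y hy).2
        exact Finset.mem_union_right _ (Finset.mem_union_right _ (Finset.mem_union_right _
            (Finset.mem_union_right _ (Finset.mem_image_of_mem _ hy))))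
  · -- rr
    intro D s ρ ζ hD hs hρ hζ
    obtain ⟨F, hF, h1, h2, h3, h4⟩ := h4 D s ρ ζ hD hs hρ hζ
    rw [hKM]
    refine hKP F hF _ (Or.inr ?_)
    exact mem_biUnion (x := D) h1 (mem_biUnion (x := s) h2 (mem_biUnion (x := ρ) h3
      (mem_biUnion (x := ζ) h4 rfl)))
  · -- WW
    intro D s ρ hD hs hρ b hb'
    obtain ⟨F, hF, h1, h2, h3, h4⟩ := h4 D s ρ ρ hD hs hρ hρ
    refine hKB F hF _ (Or.inr ?_)
    exact mem_biUnion (x := D) h1 (mem_biUnion (x := s) h2 (mem_biUnion (x := ρ) h3 hb'))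
  · -- lam
    intro k m ξ hξ
    rw [hκ]
    refine hKA {zA ξ} (by simpa using (hκ ξ).1 hξ) _ (Or.inr (Or.inr ?_))
    exact mem_iUnion.2 ⟨k, mem_iUnion.2 ⟨m, mem_biUnion (x := ξ) (ms (zA ξ)) rfl⟩⟩

end

end FAP
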