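import Pool.Agent.Helper94.FAP.Base

/-!
# FAP: finitely many small sets do not cover a long countable block
-/

open Set Cardinal

universe u v

namespace FAP

namespace F3

/-- the ordinal version of the block lemma -/
theorem blockO (ξ : Ordinal.{u}) (m : ℕ) : ∀ c : Ordinal.{u}, ∀ Z : Fin m → Set Ordinal.{u},
    (∀ i, ∃ φ : Ordinal.{u} → Ordinal.{u}, (∀ z ∈ Z i, φ z < ξ) ∧
      ∀ z ∈ Z i, ∀ z' ∈ Z i, z < z' → φ z < φ z') →
    ∃ ζ, c ≤ ζ ∧ ζ < c + (ξ + 1) ^ m ∧ ∀ i, ζ ∉ Z i := by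
  induction m with
  | zero =>
    intro c Z _
    refine ⟨c, le_rfl, ?_, fun i => i.elim0⟩
    simp
  | succ m ih =>
    intro c Z hZ
    set L : Ordinal.{u} := (ξ + 1) ^ m with hL
    obtain ⟨φ, h1, h2⟩ := hZ (Fin.last m)
    have key : ∃ κ, κ < ξ + 1 ∧ ∀ z, c + L * κ ≤ z → z < c + L * κ + L → z ∉ Z (Fin.last m) := by
      by_contra hcon
      push Not at hcon
      have hch : ∀ κ, ∃ z, κ < ξ + 1 → c + L * κ ≤ z ∧ z < c + L * κ + L ∧ z ∈ Z (Fin.last m) := by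
        intro κ
        by_cases hκ : κ < ξ + 1
        · obtain ⟨z, a1, a2, a3⟩ := hcon κ hκ
          exact ⟨z, fun _ => ⟨a1, a2, a3⟩⟩
        · exact ⟨0, fun h => absurd h hκ⟩
      choose z hz using hch
      have hlt : ∀ κ κ', κ < κ' → κ' < ξ + 1 → φ (z κ) < φ (z κ') := by
        intro κ κ' hκ hκ'
        obtain ⟨a1, a2, a3⟩ := hz κ (hκ.trans hκ')
        obtain ⟨b1, b2, b3⟩ := hz κ' hκ'
        refine h2 _ a3 _ b3 (a2.trans_le (le_trans ?_ b1))
        rw [add_assoc, ← mul_add_one]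
        gcongr
        exact Order.add_one_le_of_lt hκ
      have hle : ∀ κ, κ < ξ + 1 → κ ≤ φ (z κ) := by
        intro κ
        induction κ using WellFoundedLT.induction with
        | ind κ ihκ =>
          intro hκ
          by_contra hc
          push Not at hc
          have e1 := ihκ (φ (z κ)) hc (hc.trans hκ)
          have e2 := hlt _ _ hc hκ
          exact absurd e2 (not_lt.2 e1)
      have e1 := hle ξ (by rw [← Order.succ_eq_add_one]; exact Order.lt_succ ξ)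
      obtain ⟨-, -, a3⟩ := hz ξ (by rw [← Order.succ_eq_add_one]; exact Order.lt_succ ξ)
      exact absurd (h1 _ a3) (not_lt.2 e1)
    obtain ⟨κ, hκ, hκZ⟩ := key
    obtain ⟨ζ, b1, b2, b3⟩ := ih (c + L * κ) (fun i => Z i.castSucc) (fun i => hZ _)
    refine ⟨ζ, ?_, ?_, ?_⟩
    · refine le_trans ?_ b1
      exact le_self_add
    · refine b2.trans_le ?_
      rw [add_assoc, ← mul_add_one, pow_succ]
      have h5 : κ + 1 ≤ ξ + 1 := Order.add_one_le_of_lt hκ
      exact add_le_add_right (mul_le_mul_right h5 _) _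
    · intro i
      refine Fin.lastCases ?_ ?_ i
      · exact hκZ ζ b1 b2
      · exact b3

theorem pow_ctbl {ξ : Ordinal.{u}} (h : ξ.card ≤ ℵ₀) (m : ℕ) : ((ξ + 1) ^ m).card ≤ ℵ₀ := by
  induction m with
  | zero => simp
  | succ m ih =>
    rw [pow_succ, Ordinal.card_mul]
    refine (mul_le_mul' ih ?_).trans (by rw [aleph0_mul_aleph0])
    rw [Ordinal.card_add, Ordinal.card_one]
    calc ξ.card + 1 ≤ ℵ₀ + 1 := by gcongr
      _ = ℵ₀ := add_one_eq le_rfl
      _ ≤ ℵ₀ := le_rfl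

end F3

variable {A B : Type u} [LinearOrder A] [LinearOrder B]

theorem block (T : Setup A B) (m : ℕ) (ξ : A) :
    ∃ lam : A, ∀ Z : Fin m → Set A, (∀ i, Small (Z i) ξ) → ∃ ζ < lam, ∀ i, ζ ∉ Z i := by
  classical
  have := T.wfA
  set r : A → A → Prop := (· < ·) with hr
  set ξ' : Ordinal.{u} := Ordinal.typein r ξ with hξ'
  have hξc : ξ'.card ≤ ℵ₀ := by
    rw [hξ', Ordinal.card_typein]
    exact (T.ctA ξ).le_aleph0
  set L : Ordinal.{u} := (ξ' + 1) ^ m with hL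
  have hLc : L.card ≤ ℵ₀ := F3.pow_ctbl hξc m
  have hLt : L < Ordinal.type r := by
    by_contra hcon
    push Not at hcon
    have h1 := Ordinal.card_le_card hcon
    rw [Ordinal.card_type, T.cardA] at h1
    have : ℵ₀ < ℵ_ 1 := by
      rw [← aleph_zero]
      exact aleph_lt_aleph.2 zero_lt_one
    exact absurd (h1.trans hLc) (not_le.2 this)
  refine ⟨Ordinal.enum r ⟨L, hLt⟩, fun Z hZ => ?_⟩
  let Z' : Fin m → Set Ordinal.{u} := fun i => {o | ∃ a ∈ Z i, Ordinal.typein r a = o}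
  have hZ' : ∀ i, ∃ φ : Ordinal.{u} → Ordinal.{u}, (∀ z ∈ Z' i, φ z < ξ') ∧
      ∀ z ∈ Z' i, ∀ z' ∈ Z' i, z < z' → φ z < φ z' := by
    intro i
    obtain ⟨φ, h1, h2⟩ := hZ i
    have hty : ∀ a : A, ∀ h : Ordinal.typein r a < Ordinal.type r,
        Ordinal.enum r ⟨Ordinal.typein r a, h⟩ = a := fun a h => Ordinal.enum_typein r a
    refine ⟨fun o => if h : o < Ordinal.type r then
      Ordinal.typein r (φ (Ordinal.enum r ⟨o, h⟩)) else 0, ?_, ?_⟩
    · rintro _ ⟨a, ha, rfl⟩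
      have h3 := Ordinal.typein_lt_type r a
      simp only [h3, dif_pos]
      rw [hty, hξ', Ordinal.typein_lt_typein]
      exact h1 a ha
    · rintro _ ⟨a, ha, rfl⟩ _ ⟨a', ha', rfl⟩ hlt
      have h3 := Ordinal.typein_lt_type r a
      have h4 := Ordinal.typein_lt_type r a'
      simp only [h3, h4, dif_pos]
      rw [hty, hty, Ordinal.typein_lt_typein]
      rw [Ordinal.typein_lt_typein] at hlt
      exact h2 a ha a' ha' hlt
  obtain ⟨ζ, -, h2, h3⟩ := F3.blockO ξ' m 0 Z' hZ'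
  rw [zero_add] at h2
  have hζ : ζ < Ordinal.type r := h2.trans hLt
  refine ⟨Ordinal.enum r ⟨ζ, hζ⟩, ?_, ?_⟩
  · have : r (Ordinal.enum r ⟨ζ, hζ⟩) (Ordinal.enum r ⟨L, hLt⟩) :=
      (Ordinal.enum_lt_enum (r := r) (o₁ := ⟨ζ, hζ⟩) (o₂ := ⟨L, hLt⟩)).2 h2
    exact this
  · intro i hi
    exact h3 i ⟨_, hi, Ordinal.typein_enum r hζ⟩

theorem avoid (T : Setup A B) (k m : ℕ) (ξ : A) :
    ∃ lam : A, ∀ t : Fin k → A → B, (∀ i, StrictMono (t i)) →
      ∀ NN : Finset (Set B), NN.card ≤ m → (∀ N ∈ NN, Small N ξ) →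
        ∃ ζ < lam, ∀ i, ∀ N ∈ NN, t i ζ ∉ N := by
  classical
  obtain ⟨lam, hlam⟩ := block T (k * m) ξ
  refine ⟨lam, fun t ht NN hNN hs => ?_⟩
  -- enumerate NN by Fin m
  have henum : ∃ F : Fin m → Set B, (∀ n, Small (F n) ξ) ∧ ∀ N ∈ NN, ∃ n, F n = N := by
    let e := NN.equivFin
    refine ⟨fun n => if h : (n : ℕ) < NN.card then ((e.symm ⟨n, h⟩ : NN) : Set B) else ∅, ?_, ?_⟩
    · intro n
      by_cases h : (n : ℕ) < NN.card
      · simp only [h, dif_pos]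
        exact hs _ (e.symm ⟨n, h⟩).2
      · simp only [h, dif_neg, not_false_iff]
        exact ⟨fun _ => ξ, fun z hz => absurd hz (Set.notMem_empty z),
          fun z hz => absurd hz (Set.notMem_empty z)⟩
    · intro N hN
      have h1 : (e ⟨N, hN⟩ : ℕ) < NN.card := (e ⟨N, hN⟩).2
      refine ⟨⟨e ⟨N, hN⟩, h1.trans_le hNN⟩, ?_⟩
      simp
  obtain ⟨F, hF1, hF2⟩ := henum
  obtain ⟨ζ, h1, h2⟩ := hlam (fun q => {z | t (finProdFinEquiv.symm q).1 z ∈
    F (finProdFinEquiv.symm q).2}) (by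
      intro q
      obtain ⟨φ, a1, a2⟩ := hF1 (finProdFinEquiv.symm q).2
      exact ⟨fun z => φ (t (finProdFinEquiv.symm q).1 z), fun z hz => a1 _ hz,
        fun z hz z' hz' hlt => a2 _ hz _ hz' (ht _ hlt)⟩)
  refine ⟨ζ, h1, fun i N hN hmem => ?_⟩
  obtain ⟨n, hn⟩ := hF2 N hN
  have h3 := h2 (finProdFinEquiv (i, n))
  simp only [Equiv.symm_apply_apply, Set.mem_ofPred_eq] at h3
  rw [hn] at h3
  exact h3 hmem

end FAP
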