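import Pool.Agent.Helper94.FAP.F1

open Set Cardinal

universe u v

namespace FAP

variable {A B : Type u} [LinearOrder A] [LinearOrder B]

/-- From a dense-like family of conditions whose finite traces avoid every countable set one
extracts an `A`-sequence whose traces are listed by `k` strictly increasing functions. -/
theorem tseq (T : Setup A B) {Q : Type v} (D : Set Q) (τ : Q → Finset B)
    (h : ∀ W : Set B, W.Countable → ∃ q ∈ D, ∀ β ∈ τ q, β ∉ W) :
    ∃ (r : A → Q) (k : ℕ) (t : Fin k → A → B), (∀ ζ, r ζ ∈ D) ∧ (∀ i, StrictMono (t i)) ∧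
      ∀ ζ, ∀ β ∈ τ (r ζ), ∃ i, t i ζ = β := by
  classical
  obtain ⟨r0, hr0, hdis⟩ := seq_exists T (fun q : Q => q ∈ D)
    (fun c x => ∀ β ∈ τ x, β ∉ τ c) (by
      intro C hC _
      have hW : (⋃ c ∈ C, (↑(τ c) : Set B)).Countable :=
        hC.biUnion (fun c _ => (τ c).countable_toSet)
      obtain ⟨q, hq, hq'⟩ := h _ hW
      refine ⟨q, hq, ?_⟩
      intro c hc β hβ hβc
      exact hq' β hβ (mem_biUnion hc hβc))
  -- pigeonhole on the size of the trace
  have hunc : ∃ k : ℕ, ¬ {ζ : A | (τ (r0 ζ)).card = k}.Countable := by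
    by_contra hcon
    push Not at hcon
    have h1 : (⋃ k : ℕ, {ζ : A | (τ (r0 ζ)).card = k}).Countable := countable_iUnion hcon
    have h2 : (Set.univ : Set A).Countable := by
      refine h1.mono ?_
      intro ζ _
      exact mem_iUnion.2 ⟨_, rfl⟩
    have h3 : #A ≤ ℵ₀ := by
      rw [← mk_univ]
      exact h2.le_aleph0
    rw [T.cardA] at h3
    have : ℵ₀ < ℵ_ 1 := by
      rw [← aleph_zero]
      exact aleph_lt_aleph.2 zero_lt_one
    exact absurd h3 (not_le.2 this)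
  obtain ⟨k, hk⟩ := hunc
  obtain ⟨v, hv, hvm⟩ := seq_exists T (fun ζ : A => (τ (r0 ζ)).card = k) (fun a b => a < b) (by
      intro C hC _
      obtain ⟨a, ha⟩ := ctbl_bdd T C hC
      by_contra hcon
      push Not at hcon
      apply hk
      refine (T.ctA a).mono ?_
      intro ζ hζ
      obtain ⟨c, hc, hcζ⟩ := hcon ζ hζ
      exact lt_of_le_of_lt hcζ (ha c hc))
  let t' : Fin k → A → B := fun i ζ => (τ (r0 (v ζ))).orderEmbOfFin (hv ζ) i
  have ht'mem : ∀ i ζ, t' i ζ ∈ τ (r0 (v ζ)) := by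
    intro i ζ
    exact Finset.orderEmbOfFin_mem _ _ _
  have ht' : ∀ i, Function.Injective (t' i) := by
    intro i ζ ζ' heq
    by_contra hne
    rcases lt_or_gt_of_ne hne with hlt | hlt
    · exact hdis _ _ (hvm _ _ hlt) _ (ht'mem i ζ') (heq ▸ ht'mem i ζ)
    · exact hdis _ _ (hvm _ _ hlt) _ (ht'mem i ζ) (heq ▸ ht'mem i ζ')
  obtain ⟨s, -, hs2⟩ := refine_strictMono T k t' ht'
  refine ⟨fun ζ => r0 (v (s ζ)), k, fun i => t' i ∘ s, fun ζ => hr0 _, hs2, ?_⟩
  intro ζ β hβ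
  have : β ∈ Set.range ((τ (r0 (v (s ζ)))).orderEmbOfFin (hv (s ζ))) := by
    rw [Finset.range_orderEmbOfFin]
    exact hβ
  obtain ⟨i, hi⟩ := this
  exact ⟨i, hi⟩

end FAP
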