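import Pool.Agent.Helper94.FAP.Base
import Pool.Agent.Helper94.FAP.F3
import Pool.Agent.Helper94.FAP.F16ab
import Pool.Agent.Helper94.FAP.F16c
import Pool.Agent.Helper94.FAP.F4

open Set Cardinal

universe u v

namespace FAP

variable {A B : Type u} [LinearOrder A] [LinearOrder B]

theorem fin_bound {ι : Type v} (O : Finset ι) (κ : A) (h0 : ∃ a, a < κ) (R : ι → A → Prop)
    (hmono : ∀ y a b, a ≤ b → R y a → R y b) (h : ∀ y ∈ O, ∃ a, a < κ ∧ R y a) :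
    ∃ a, a < κ ∧ ∀ y ∈ O, R y a := by
  classical
  induction O using Finset.induction_on with
  | empty => obtain ⟨a, ha⟩ := h0; exact ⟨a, ha, by simp⟩
  | insert y O hy ih =>
    obtain ⟨a, ha, hRa⟩ := ih (fun z hz => h z (Finset.mem_insert_of_mem hz))
    obtain ⟨b, hb, hRb⟩ := h y (Finset.mem_insert_self _ _)
    refine ⟨max a b, max_lt ha hb, ?_⟩
    intro z hz
    rcases Finset.mem_insert.1 hz with rfl | hz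
    · exact hmono _ _ _ (le_max_right _ _) hRb
    · exact hmono _ _ _ (le_max_left _ _) (hRa z hz)

open Classical in
/-- The first coordinates of the new elements of `Out` with left end below `ρ`. -/
noncomputable def tau (s : Pre A B) (ρ : A) (q : Pre A B) : Finset B :=
  (q.Out.filter (fun y => y ∉ s.Out ∧ y.2.1 < ρ)).image Prod.fst

theorem mem_tau {s : Pre A B} {ρ : A} {q : Pre A B} {β : B} :
    β ∈ tau s ρ q ↔ ∃ a b, (β, a, b) ∈ q.Out ∧ (β, a, b) ∉ s.Out ∧ a < ρ := by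
  classical
  simp [tau, and_assoc]

theorem pos_dich (T : Setup A B) (Act : B → A → Prop) (bit : B → Bool)
    (D : Set (Pos T Act bit)) (s : Pos T Act bit) (ρ : A) :
    ∃ (W : Set B) (r : A → Pos T Act bit) (k : ℕ) (t : Fin k → A → B), W.Countable ∧
      ((∃ q, q ∈ D ∧ q ≤ s ∧ ∀ β ∈ tau s.1 ρ q.1, β ∉ W) →
        (∀ ζ, r ζ ∈ D ∧ r ζ ≤ s) ∧ (∀ i, StrictMono (t i)) ∧
          ∀ ζ, ∀ β ∈ tau s.1 ρ (r ζ).1, ∃ i, t i ζ = β) := by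
  classical
  by_cases h : ∀ W : Set B, W.Countable → ∃ q ∈ {q | q ∈ D ∧ q ≤ s}, ∀ β ∈ tau s.1 ρ q.1, β ∉ W
  · obtain ⟨r, k, t, h1, h2, h3⟩ := tseq T {q | q ∈ D ∧ q ≤ s} (fun q => tau s.1 ρ q.1) h
    exact ⟨∅, r, k, t, countable_empty, fun _ => ⟨h1, h2, h3⟩⟩
  · push Not at h
    obtain ⟨W, hW, h⟩ := h
    refine ⟨W, fun _ => s, 0, fun i => i.elim0, hW, ?_⟩
    rintro ⟨q, hqD, hqs, hq⟩
    obtain ⟨β, hβ, hβW⟩ := h q ⟨hqD, hqs⟩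
    exact absurd hβW (hq β hβ)

theorem pos_clubProper (T : Setup A B) (Act : B → A → Prop) (bit : B → Bool)
    (hAct : ActOK T Act) : ClubProper.{u, v} (Pos T Act bit) := by
  classical
  intro X i j hi hj
  obtain ⟨E, hE, hfin⟩ := hAct
  have hnx : ∀ δ a, ∃ b, δ ∈ SS B → b ∈ E δ ∧ a < b := by
    intro δ a
    by_cases h : δ ∈ SS B
    · obtain ⟨b, hb, hab⟩ := (hE δ h).unb a
      exact ⟨b, fun _ => ⟨hb, hab⟩⟩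
    · exact ⟨a, fun h' => absurd h' h⟩
  choose nx hnx using hnx
  choose lam hlam using fun k m ξ => avoid T k m ξ
  choose WW rr kk tt hWW hseq using pos_dich T Act bit
  obtain ⟨C, hC, htr⟩ := trace_club T Act bit i j hi hj nx rr WW hWW lam
  refine ⟨C, hC, ?_⟩
  intro M hM p hp
  obtain ⟨κ, N, tr⟩ := htr M hM
  have hbel := tr.below p hp
  have hκE : ∀ δ ∈ N, δ ∈ SS B → κ ∈ E δ := fun δ hδ hS =>
    (hE δ hS).closed κ tr.pos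
      (fun a ha => ⟨nx δ a, (hnx δ a hS).1, (hnx δ a hS).2, tr.clnx δ hδ a ha⟩)
  obtain ⟨q, hqv, hqp, hqM⟩ := top_valid T Act bit κ N tr.suit (hfin κ N tr.suit hκE) p.1 p.2 hbel
  refine ⟨⟨q, hqv⟩, hqp, ?_⟩
  intro D hD hjD r hr
  obtain ⟨r0, hr0D, hr0r⟩ := hD r
  have hr0q : r0.1 ≤ q := le_trans (show r0.1 ≤ r.1 from hr0r) hr
  have hMod : (κ, N) ∈ r0.1.Mod := hr0q.2.2.2.2 hqM
  obtain ⟨ξκ, hξκ, -⟩ := r0.2.c4g κ N hMod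
  have hg5 : ∀ η ξ, (η, ξ) ∈ r0.1.g → η < κ → ξ < κ := fun η ξ h hlt =>
    r0.2.c5 η ξ κ ξκ h hξκ hlt
  -- the trace
  obtain ⟨s, hsg, hsh, hsIn, hsOut, hsMod⟩ : ∃ s : Pre A B,
      (∀ η ξ, (η, ξ) ∈ s.g ↔ (η, ξ) ∈ r0.1.g ∧ η < κ) ∧
      (∀ α η b, (α, η, b) ∈ s.h ↔ (α, η, b) ∈ r0.1.h ∧ α ∈ N ∧ η < κ) ∧
      (∀ δ η, (δ, η) ∈ s.In ↔ (δ, η) ∈ r0.1.In ∧ δ ∈ N ∧ η < κ) ∧
      (∀ δ a b, (δ, a, b) ∈ s.Out ↔ (δ, a, b) ∈ r0.1.Out ∧ δ ∈ N ∧ a < κ ∧ b < κ) ∧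
      (∀ y, y ∈ s.Mod ↔ y ∈ r0.1.Mod ∧ ∃ p : Pos T Act bit, i p ∈ M ∧ y ∈ p.1.Mod) := by
    refine ⟨⟨r0.1.g.filter (fun y => y.1 < κ), r0.1.h.filter (fun y => y.1 ∈ N ∧ y.2.1 < κ),
      r0.1.In.filter (fun y => y.1 ∈ N ∧ y.2 < κ),
      r0.1.Out.filter (fun y => y.1 ∈ N ∧ y.2.1 < κ ∧ y.2.2 < κ),
      r0.1.Mod.filter (fun y => ∃ p : Pos T Act bit, i p ∈ M ∧ y ∈ p.1.Mod)⟩, ?_, ?_, ?_, ?_, ?_⟩
    all_goals intros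
    all_goals simp only [Finset.mem_filter]
  have hModN : ∀ η N', (η, N') ∈ s.Mod → η < κ ∧ N' ⊆ N := by
    intro η N' h
    obtain ⟨-, p', hp', hy⟩ := (hsMod _).1 h
    exact (tr.below p' hp').Mod η N' hy
  have hsv : Valid T Act bit s := by
    refine ⟨?_, ?_, ?_, ?_, ?_, ?_, ?_, ?_, ?_, ?_, ?_⟩
    · intro η ξ ξ' h h'
      exact r0.2.c0g η ξ ξ' ((hsg _ _).1 h).1 ((hsg _ _).1 h').1
    · intro α η b b' h h'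
      exact r0.2.c0h α η b b' ((hsh _ _ _).1 h).1 ((hsh _ _ _).1 h').1
    · intro δ η h
      exact r0.2.c1S δ η ((hsIn _ _).1 h).1
    · intro δ η h
      obtain ⟨h1, h2, h3⟩ := (hsIn _ _).1 h
      obtain ⟨ξ, hξ, hf⟩ := r0.2.c1g δ η h1
      exact ⟨ξ, (hsg _ _).2 ⟨hξ, h3⟩, hf⟩
    · intro δ η h hact
      obtain ⟨h1, h2, h3⟩ := (hsIn _ _).1 h
      exact (hsh _ _ _).2 ⟨r0.2.c1h δ η h1 hact, tr.clx δ h2 η h3, h3⟩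
    · intro δ η a b h h' h1 h2
      exact r0.2.c2 δ η a b ((hsIn _ _).1 h).1 ((hsOut _ _ _).1 h').1 h1 h2
    · intro η N' δ a b h hδ h' h1 h2
      exact r0.2.c3 η N' δ a b ((hsMod _).1 h).1 hδ ((hsOut _ _ _).1 h').1 h1 h2
    · intro η N' h
      exact r0.2.c4s η N' ((hsMod _).1 h).1
    · intro η N' h
      obtain ⟨ξ, hξ, hsm⟩ := r0.2.c4g η N' ((hsMod _).1 h).1
      exact ⟨ξ, (hsg _ _).2 ⟨hξ, (hModN η N' h).1⟩, hsm⟩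
    · intro η N' h δ hδ hS hact
      have h3 := hModN η N' h
      exact (hsh _ _ _).2 ⟨r0.2.c4h η N' ((hsMod _).1 h).1 δ hδ hS hact,
        tr.clx δ (h3.2 hδ) η h3.1, h3.1⟩
    · intro η ξ ζ ξ' h h' hlt
      exact r0.2.c5 η ξ ζ ξ' ((hsg _ _).1 h).1 ((hsg _ _).1 h').1 hlt
  have hsB : Below κ N s := by
    refine ⟨?_, ?_, ?_, ?_, ?_⟩
    · intro η ξ h
      obtain ⟨h1, h2⟩ := (hsg _ _).1 h
      exact ⟨h2, hg5 η ξ h1 h2⟩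
    · intro α η b h
      exact ((hsh _ _ _).1 h).2
    · intro δ η h
      exact ((hsIn _ _).1 h).2
    · intro δ a b h
      exact ((hsOut _ _ _).1 h).2
    · exact hModN
  have hsM : i ⟨s, hsv⟩ ∈ M := tr.build ⟨s, hsv⟩ hsB (fun y hy => ((hsMod y).1 hy).2)
  have hr0s : r0.1 ≤ s := by
    refine ⟨?_, ?_, ?_, ?_, ?_⟩
    · rintro ⟨η, ξ⟩ h
      exact ((hsg _ _).1 h).1
    · rintro ⟨α, η, b⟩ h
      exact ((hsh _ _ _).1 h).1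
    · rintro ⟨δ, η⟩ h
      exact ((hsIn _ _).1 h).1
    · rintro ⟨δ, a, b⟩ h
      exact ((hsOut _ _ _).1 h).1
    · intro y h
      exact ((hsMod _).1 h).1
  -- outsiders
  obtain ⟨O, hO⟩ : ∃ O : Finset (A × Set B),
      ∀ y, y ∈ O ↔ y ∈ r0.1.Mod ∧ y ∉ s.Mod ∧ y.1 < κ := by
    refine ⟨r0.1.Mod.filter (fun y => y ∉ s.Mod ∧ y.1 < κ), ?_⟩
    intro y
    simp only [Finset.mem_filter]
  obtain ⟨ρ, hρκ, hρ⟩ : ∃ ρ, ρ < κ ∧ ∀ y ∈ O, y.1 ≤ ρ :=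
    fin_bound O κ tr.pos (fun y a => y.1 ≤ a) (fun y a b hab h => h.trans hab)
      (fun y hy => ⟨y.1, ((hO y).1 hy).2.2, le_rfl⟩)
  obtain ⟨ξ, hξκ', hξ⟩ : ∃ ξ, ξ < κ ∧ ∀ y ∈ O, Small y.2 ξ := by
    refine fin_bound O κ tr.pos (fun y a => Small y.2 a) (fun y a b hab h => h.mono hab) ?_
    rintro ⟨η, N'⟩ hy
    obtain ⟨h1, h2, h3⟩ := (hO _).1 hy
    obtain ⟨ξ, hξ, hsm⟩ := r0.2.c4g η N' h1
    exact ⟨ξ, hg5 η ξ hξ h3, hsm⟩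
  have hτ : ∀ β ∈ tau s ρ r0.1, β ∉ N := by
    intro β hβ hβN
    obtain ⟨a, b, h1, h2, h3⟩ := mem_tau.1 hβ
    have haκ : a < κ := h3.trans hρκ
    by_cases hb : b < κ
    · exact h2 ((hsOut _ _ _).2 ⟨h1, hβN, haκ, hb⟩)
    · exact r0.2.c3 κ N β a b hMod hβN h1 haκ (not_lt.1 hb)
  obtain ⟨h1, h2, h3⟩ := hseq D ⟨s, hsv⟩ ρ ⟨r0, hr0D, hr0s, fun β hβ hW =>
    hτ β hβ (tr.clW D ⟨s, hsv⟩ ρ hjD hsM hρκ hW)⟩
  obtain ⟨ζ, hζ, hav⟩ := hlam (kk D ⟨s, hsv⟩ ρ) O.card ξ (tt D ⟨s, hsv⟩ ρ) h2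
    (O.image Prod.snd) Finset.card_image_le (by
      intro N' hN'
      obtain ⟨y, hy, rfl⟩ := Finset.mem_image.1 hN'
      exact hξ y hy)
  have hζκ : ζ < κ := hζ.trans (tr.cllam _ _ _ hξκ')
  have hr'M : i (rr D ⟨s, hsv⟩ ρ ζ) ∈ M := tr.clr D ⟨s, hsv⟩ ρ ζ hjD hsM hρκ hζκ
  have hbr' := tr.below _ hr'M
  have hv : Valid T Act bit (r0.1.un (rr D ⟨s, hsv⟩ ρ ζ).1) := by
    refine amalg_valid T Act bit κ N s r0.1 (rr D ⟨s, hsv⟩ ρ ζ).1 r0.2 (rr D ⟨s, hsv⟩ ρ ζ).2 hMod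
      hbr' (h1 ζ).2 ?_ ?_ ?_ ?_ hr0s ?_
    · intro η ξ h hlt
      exact (hsg _ _).2 ⟨h, hlt⟩
    · intro α η b h hα hlt
      exact (hsh _ _ _).2 ⟨h, hα, hlt⟩
    · intro δ η h hδ hlt
      exact (hsIn _ _).2 ⟨h, hδ, hlt⟩
    · intro δ a b h hδ ha hb
      exact (hsOut _ _ _).2 ⟨h, hδ, ha, hb⟩
    · intro η N' δ a b hN' hN's hη hδ hout hnot haη
      have hyO : (η, N') ∈ O := (hO _).2 ⟨hN', hN's, hη⟩
      have hδτ : δ ∈ tau s ρ (rr D ⟨s, hsv⟩ ρ ζ).1 :=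
        mem_tau.2 ⟨a, b, hout, hnot, haη.trans_le (hρ _ hyO)⟩
      obtain ⟨k, hk⟩ := h3 ζ δ hδτ
      exact hav k N' (Finset.mem_image.2 ⟨_, hyO, rfl⟩) (hk ▸ hδ)
  exact ⟨rr D ⟨s, hsv⟩ ρ ζ, (h1 ζ).1, hr'M, ⟨r0.1.un (rr D ⟨s, hsv⟩ ρ ζ).1, hv⟩,
    Pre.un_le_right _ _, le_trans (show _ ≤ r0 from Pre.un_le_left _ _) hr0r⟩

end FAP
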