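import Pool.Agent.Helper94.FAP.Elem

open Set Cardinal

universe u v

namespace FAP

/-- A countable poset is proper. -/
theorem clubProper_of_countable (P : Type u) [PartialOrder P] [Countable P] :
    ClubProper.{u, v} P := by
  intro X i j _ _
  refine ⟨{M | M.Countable ∧ Set.range i ⊆ M}, ⟨fun M hM => hM.1, ?_, ?_⟩, ?_⟩
  · intro N hN
    exact ⟨N ∪ Set.range i, ⟨hN.union (countable_range i), subset_union_right⟩,
      subset_union_left⟩
  · intro c _ hcC
    exact ⟨countable_iUnion (fun n => (hcC n).1), (hcC 0).2.trans (subset_iUnion c 0)⟩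
  · rintro M ⟨-, hM⟩ p -
    refine ⟨p, le_rfl, ?_⟩
    intro D hD _ r _
    obtain ⟨s, hs, hsr⟩ := hD r
    exact ⟨s, hs, hM ⟨s, rfl⟩, s, le_rfl, hsr⟩

/-- Finite partial functions from the natural numbers to `Bool`. -/
def Coh : Type u :=
  ULift.{u} {s : Finset (ℕ × Bool) // ∀ n b b', (n, b) ∈ s → (n, b') ∈ s → b = b'}

instance : PartialOrder Coh.{u} where
  le p q := q.down.1 ⊆ p.down.1
  le_refl p := subset_rfl
  le_trans p q r hpq hqr := hqr.trans hpq
  le_antisymm p q hpq hqp := ULift.ext _ _ (Subtype.ext (hqp.antisymm hpq))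

instance : Countable Coh.{u} :=
  inferInstanceAs (Countable (ULift.{u}
    {s : Finset (ℕ × Bool) // ∀ n b b', (n, b) ∈ s → (n, b') ∈ s → b = b'}))

theorem new_real (hFA : FA.{u, v}) {B : Type u} (hB : #B = ℵ_ 2) (c : B → ℕ → Bool) :
    ∃ y : ℕ → Bool, ∀ β n, ∃ m, n ≤ m ∧ y m ≠ c β m := by
  classical
  have hne : Nonempty Coh.{u} := ⟨⟨⟨∅, by simp⟩⟩⟩
  have hcc : Aleph2CC Coh.{u} := by
    intro W _
    exact (mk_le_aleph0 (α := W)).trans (aleph0_le_aleph 1)
  have hcard : #(B × ULift.{u} ℕ) ≤ ℵ_ 2 := by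
    simp only [mk_prod, lift_id, hB]
    refine (mul_le_mul' le_rfl ((mk_le_aleph0 (α := ULift.{u} ℕ)).trans
      (aleph0_le_aleph 2))).trans ?_
    exact (mul_eq_self (aleph0_le_aleph 2)).le
  obtain ⟨G, hG, hGD⟩ := hFA Coh.{u} hne (clubProper_of_countable Coh.{u}).isProper hcc
    (B × ULift.{u} ℕ) (fun k => {p | ∃ m, k.2.down ≤ m ∧ (m, !(c k.1 m)) ∈ p.down.1}) hcard (by
      rintro ⟨β, ⟨n⟩⟩ p
      obtain ⟨m, hm⟩ := Finset.exists_le (p.down.1.image Prod.fst)
      let k := max n (m + 1)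
      have hk : ∀ b, (k, b) ∉ p.down.1 := by
        intro b hb
        have h1 := hm k (Finset.mem_image.2 ⟨(k, b), hb, rfl⟩)
        have h2 : m + 1 ≤ k := le_max_right _ _
        omega
      refine ⟨⟨⟨insert (k, !(c β k)) p.down.1, ?_⟩⟩, ⟨k, le_max_left _ _, ?_⟩, ?_⟩
      · intro n' b b' h h'
        rcases Finset.mem_insert.1 h with h | h <;> rcases Finset.mem_insert.1 h' with h' | h'
        · rw [Prod.mk.injEq] at h h'
          rw [h.2, h'.2]
        · rw [Prod.mk.injEq] at h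
          rw [h.1] at h'
          exact absurd h' (hk _)
        · rw [Prod.mk.injEq] at h'
          rw [h'.1] at h
          exact absurd h (hk _)
        · exact p.down.2 n' b b' h h'
      · exact Finset.mem_insert_self _ _
      · exact Finset.subset_insert _ _)
  refine ⟨fun m => decide (∃ p ∈ G, (m, true) ∈ p.down.1), ?_⟩
  intro β n
  obtain ⟨p, hp, m, hnm, hm⟩ := hGD (β, ⟨n⟩)
  refine ⟨m, hnm, ?_⟩
  rcases hc : c β m with _ | _
  · rw [hc] at hm
    have : decide (∃ p ∈ G, (m, true) ∈ p.down.1) = true := decide_eq_true ⟨p, hp, hm⟩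
    simp only [this]
    decide
  · rw [hc] at hm
    have : decide (∃ p ∈ G, (m, true) ∈ p.down.1) = false := by
      refine decide_eq_false ?_
      rintro ⟨q, hq, hqm⟩
      obtain ⟨r, -, hrp, hrq⟩ := hG.dir p hp q hq
      have := r.down.2 m _ _ (hrq hqm) (hrp hm)
      simp at this
    simp only [this]
    decide

/-- Eventual equality. -/
def evEq : Setoid (ℕ → Bool) where
  r f g := ∃ n, ∀ m, n ≤ m → f m = g m
  iseqv := ⟨fun _ => ⟨0, fun _ _ => rfl⟩, fun ⟨n, h⟩ => ⟨n, fun m hm => (h m hm).symm⟩,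
    fun ⟨n, h⟩ ⟨n', h'⟩ => ⟨max n n', fun m hm =>
      (h m ((le_max_left _ _).trans hm)).trans (h' m ((le_max_right _ _).trans hm))⟩⟩

theorem reals_of_FA (hFA : FA.{u, v}) {B : Type u} (hB : #B = ℵ_ 2) :
    ∃ r : B → ℕ → Bool, ∀ β β', β ≠ β' → ∀ n, ∃ m, n ≤ m ∧ r β m ≠ r β' m := by
  classical
  rcases le_total (Cardinal.lift.{0} #B) (Cardinal.lift.{u} #(Quotient evEq)) with h | h
  · obtain ⟨e⟩ := Cardinal.lift_mk_le'.1 h
    refine ⟨fun β => (e β).out, ?_⟩
    intro β β' hne n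
    by_contra hcon
    push Not at hcon
    apply hne
    apply e.injective
    rw [← (e β).out_eq, ← (e β').out_eq]
    exact Quotient.sound ⟨n, hcon⟩
  · obtain ⟨e⟩ := Cardinal.lift_mk_le'.1 h
    have : Nonempty (Quotient evEq) := ⟨Quotient.mk _ (fun _ => false)⟩
    obtain ⟨y, hy⟩ := new_real hFA hB (fun β => (Function.invFun e β).out)
    exfalso
    have h1 : Function.invFun e (e (Quotient.mk evEq y)) = Quotient.mk evEq y :=
      Function.leftInverse_invFun e.injective _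
    have h2 : Quotient.mk evEq ((Function.invFun e (e (Quotient.mk evEq y))).out) =
        Quotient.mk evEq y := by
      rw [Quotient.out_eq, h1]
    obtain ⟨n, hn⟩ := Quotient.exact h2
    obtain ⟨m, hnm, hm⟩ := hy (e (Quotient.mk evEq y)) n
    exact hm (hn m hnm).symm

end FAP
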