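import Pool.Agent.Helper94.FAP.Base

open Set Cardinal

universe u v

namespace FAP

theorem exists_wo (c : Cardinal.{u}) : ∃ (A : Type u) (_ : LinearOrder A),
    WellFoundedLT A ∧ #A = c ∧ ∀ a : A, #(Iio a) < c := by
  refine ⟨c.ord.ToType, inferInstance, inferInstance, mk_ord_toType _, ?_⟩
  intro a
  simpa using mk_Iio_lt a

theorem exists_setup :
    ∃ (A B : Type u) (_ : LinearOrder A) (_ : LinearOrder B), Nonempty (Setup A B) := by
  classical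
  obtain ⟨A, iA, wfA, cardA, hA⟩ := exists_wo (ℵ_ 1 : Cardinal.{u})
  obtain ⟨B, iB, wfB, cardB, hB⟩ := exists_wo (ℵ_ 2 : Cardinal.{u})
  refine ⟨A, B, iA, iB, ?_⟩
  have ctA : ∀ a : A, (Iio a).Countable := by
    intro a
    rw [← le_aleph0_iff_set_countable]
    exact lt_aleph_one_iff.1 (hA a)
  have leB : ∀ b : B, #(Iio b) ≤ ℵ_ 1 := by
    intro b
    have h := hB b
    have h2 : (ℵ_ 2 : Cardinal.{u}) = Order.succ (ℵ_ 1) := by
      rw [succ_aleph]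
      congr 1
      norm_num
    rw [h2] at h
    exact Order.lt_succ_iff.1 h
  have hsurj : ∀ γ : B, ∃ g : A → B, ∀ β < γ, ∃ ξ, g ξ = β := by
    intro γ
    have h : #(Iio γ) ≤ #A := by rw [cardA]; exact leB γ
    obtain ⟨j⟩ := h
    refine ⟨fun a => if h : ∃ z : Iio γ, j z = a then (h.choose : B) else γ, ?_⟩
    intro β hβ
    have hβ' : β ∈ Iio γ := hβ
    refine ⟨j ⟨β, hβ'⟩, ?_⟩
    have hex : ∃ z : Iio γ, j z = j ⟨β, hβ'⟩ := ⟨_, rfl⟩
    simp only [dif_pos hex]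
    have := j.injective hex.choose_spec
    rw [this]
  choose e he using hsurj
  have hRct : ∀ γ η, (RR e γ η).Countable := by
    intro γ η
    refine ((ctA η).image (e γ)).mono ?_
    rintro β ⟨_, ξ, hξ, rfl⟩
    exact ⟨ξ, hξ, rfl⟩
  have hx : ∀ δ : B, ∀ η : A, ∃ y : B, δ ∈ SS B → y < δ ∧ ∀ β ∈ RR e δ η, β ≤ y := by
    intro δ η
    by_cases hδ : δ ∈ SS B
    · obtain ⟨y, hy, hy'⟩ := hδ (RR e δ η) (hRct δ η) (fun y hy => hy.1)
      exact ⟨y, fun _ => ⟨hy, hy'⟩⟩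
    · exact ⟨δ, fun h => absurd h hδ⟩
  choose x hx using hx
  have hf : ∀ δ η, ∃ ξ : A, Small (RR e δ η) ξ := fun δ η =>
    exists_small' wfB (ctbl_bdd' cardA ctA) _ (hRct δ η)
  have hf' : ∀ δ η, ∃ ξ : A, Small (RR e δ η) ξ ∧ ∀ a, Small (RR e δ η) a → ξ ≤ a := by
    intro δ η
    refine ⟨wfA.wf.min {ξ | Small (RR e δ η) ξ} (hf δ η), ?_, ?_⟩
    · exact wfA.wf.min_mem {ξ | Small (RR e δ η) ξ} (hf δ η)
    · intro a ha
      exact not_lt.1 (wfA.wf.not_lt_min {ξ | Small (RR e δ η) ξ} ha)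
  choose f hf1 hf2 using hf'
  exact ⟨⟨wfA, wfB, cardA, ctA, cardB, leB, e, he, x, fun δ hδ η => (hx δ η hδ).1,
    fun δ hδ η => (hx δ η hδ).2, f, hf1, hf2⟩⟩

variable {A B : Type u} [LinearOrder A] [LinearOrder B]

theorem clubA_inter (T : Setup A B) (E : ℕ → Set A) (hE : ∀ n, ClubA (E n)) :
    ∃ η, ∀ n, η ∈ E n := by
  classical
  have hnx : ∀ n a, ∃ b ∈ E n, a < b := fun n a => (hE n).unb a
  choose nx hnx1 hnx2 using hnx
  have hF : ∀ a : A, ∃ c, ∀ n, nx n a < c := by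
    intro a
    obtain ⟨c, hc⟩ := ctbl_bdd T (range fun n => nx n a) (countable_range _)
    exact ⟨c, fun n => hc _ ⟨n, rfl⟩⟩
  choose F hF using hF
  have hne : Nonempty A := by
    rw [← mk_ne_zero_iff, T.cardA]
    exact (aleph_pos 1).ne'
  obtain ⟨a0⟩ := hne
  let s : ℕ → A := fun k => F^[k] a0
  have hs : ∀ k, s (k + 1) = F (s k) := fun k => Function.iterate_succ_apply' F k a0
  have hss : ∀ k, s k < s (k + 1) := by
    intro k
    rw [hs]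
    exact (hnx2 0 (s k)).trans (hF (s k) 0)
  have hub : {c : A | ∀ k, s k < c}.Nonempty := by
    obtain ⟨c, hc⟩ := ctbl_bdd T (range s) (countable_range _)
    exact ⟨c, fun k => hc _ ⟨k, rfl⟩⟩
  refine ⟨T.wfA.wf.min _ hub, ?_⟩
  have h1 : ∀ k, s k < T.wfA.wf.min _ hub := T.wfA.wf.min_mem _ hub
  have h2 : ∀ a < T.wfA.wf.min _ hub, ∃ k, a ≤ s k := by
    intro a ha
    by_contra hcon
    push Not at hcon
    exact T.wfA.wf.not_lt_min _ (show a ∈ {c : A | ∀ k, s k < c} from fun k => hcon k) ha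
  intro n
  refine (hE n).closed _ ⟨s 0, h1 0⟩ ?_
  intro a ha
  obtain ⟨k, hk⟩ := h2 a ha
  refine ⟨nx n (s k), hnx1 n _, hk.trans_lt (hnx2 n _), ?_⟩
  refine lt_trans (hF (s k) n) ?_
  rw [← hs]
  exact h1 (k + 1)

theorem bdd_of_card (T : Setup A B) (S : Set B) (hS : #S ≤ ℵ_ 1) : ∃ b, ∀ y ∈ S, y < b := by
  by_contra hcon
  push Not at hcon
  have h1 : (Set.univ : Set B) ⊆ ⋃ y ∈ S, Iic y := by
    intro b _
    obtain ⟨y, hy, hby⟩ := hcon b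
    exact mem_biUnion hy hby
  have h2 : #(⋃ y ∈ S, Iic y : Set B) ≤ ℵ_ 1 := by
    refine (mk_biUnion_le _ _).trans ?_
    refine (mul_le_mul' hS (ciSup_le' (a := ℵ_ 1) ?_)).trans ?_
    · rintro ⟨y, hy⟩
      have : (Iic y : Set B) = insert y (Iio y) := by
        ext z; simp [le_iff_lt_or_eq, or_comm]
      rw [this]
      refine (mk_insert_le).trans ?_
      refine (add_le_add_left (T.leB y) 1).trans ?_
      rw [add_one_eq (aleph0_le_aleph 1)]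
    · rw [mul_eq_self (aleph0_le_aleph 1)]
  have h3 : #B ≤ ℵ_ 1 := by
    rw [← mk_univ]
    exact (mk_le_mk_of_subset h1).trans h2
  rw [T.cardB] at h3
  have : (ℵ_ 1 : Cardinal.{u}) < ℵ_ 2 := aleph_lt_aleph.2 (by norm_num)
  exact absurd h3 (not_le.2 this)

theorem exists_seq (T : Setup A B) (K : B → B) :
    ∃ b : A → B, ∀ ζ' ζ, ζ' < ζ → b ζ' < b ζ ∧ K (b ζ') < b ζ := by
  classical
  have hstep : ∀ c : Set B, ∃ a, #c ≤ ℵ_ 1 → ∀ y ∈ c, y < a := by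
    intro c
    by_cases hc : #c ≤ ℵ_ 1
    · obtain ⟨a, ha⟩ := bdd_of_card T c hc
      exact ⟨a, fun _ => ha⟩
    · obtain ⟨a, -⟩ := bdd_of_card T ∅ (by simp)
      exact ⟨a, fun h => absurd h hc⟩
  choose G hG using hstep
  let b : A → B := T.wfA.wf.fix (fun ζ ih =>
    G ({y | ∃ (ζ' : A) (h : ζ' < ζ), ih ζ' h = y} ∪ {y | ∃ (ζ' : A) (h : ζ' < ζ), K (ih ζ' h) = y}))
  have hb : ∀ ζ, b ζ = G (b '' Iio ζ ∪ (fun z => K (b z)) '' Iio ζ) := by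
    intro ζ
    have := T.wfA.wf.fix_eq (fun ζ ih =>
      G ({y | ∃ (ζ' : A) (h : ζ' < ζ), ih ζ' h = y} ∪
        {y | ∃ (ζ' : A) (h : ζ' < ζ), K (ih ζ' h) = y})) ζ
    refine this.trans ?_
    congr 1
    ext a
    simp only [mem_union, mem_ofPred_eq, mem_image, mem_Iio]
    constructor
    · rintro (⟨b', h, rfl⟩ | ⟨b', h, rfl⟩)
      · exact Or.inl ⟨b', h, rfl⟩
      · exact Or.inr ⟨b', h, rfl⟩
    · rintro (⟨b', h, rfl⟩ | ⟨b', h, rfl⟩)
      · exact Or.inl ⟨b', h, rfl⟩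
      · exact Or.inr ⟨b', h, rfl⟩
  refine ⟨b, ?_⟩
  intro ζ' ζ hlt
  have hc : (b '' Iio ζ ∪ (fun z => K (b z)) '' Iio ζ).Countable :=
    ((T.ctA ζ).image _).union ((T.ctA ζ).image _)
  have hc' : #(b '' Iio ζ ∪ (fun z => K (b z)) '' Iio ζ : Set B) ≤ ℵ_ 1 :=
    hc.le_aleph0.trans (aleph0_le_aleph 1)
  have h := hG _ hc'
  rw [← hb] at h
  exact ⟨h _ (Or.inl ⟨ζ', hlt, rfl⟩), h _ (Or.inr ⟨ζ', hlt, rfl⟩)⟩

theorem no_injection (T : Setup A B) (F : B → A × ℕ × B)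
    (hinj : ∀ δ ∈ SS B, ∀ δ' ∈ SS B, F δ = F δ' → δ = δ')
    (hlt : ∀ δ ∈ SS B, (F δ).2.2 < δ) : False := by
  classical
  have hK : ∀ β : B, ∃ k, ∀ δ ∈ SS B, (F δ).2.2 ≤ β → δ < k := by
    intro β
    have hcard : #({δ | δ ∈ SS B ∧ (F δ).2.2 ≤ β} : Set B) ≤ ℵ_ 1 := by
      let φ : ({δ | δ ∈ SS B ∧ (F δ).2.2 ≤ β} : Set B) → A × ℕ × (Iic β : Set B) :=
        fun δ => ((F δ.1).1, (F δ.1).2.1, ⟨(F δ.1).2.2, δ.2.2⟩)
      have hφ : Function.Injective φ := by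
        intro δ δ' h
        apply Subtype.ext
        apply hinj _ δ.2.1 _ δ'.2.1
        simp only [φ, Prod.mk.injEq, Subtype.mk.injEq] at h
        exact Prod.ext h.1 (Prod.ext h.2.1 h.2.2)
      refine (mk_le_of_injective hφ).trans ?_
      have hI : #(Iic β : Set B) ≤ ℵ_ 1 := by
        have : (Iic β : Set B) = insert β (Iio β) := by
          ext z; simp [le_iff_lt_or_eq, or_comm]
        rw [this]
        refine (mk_insert_le).trans ?_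
        refine (add_le_add_left (T.leB β) 1).trans ?_
        rw [add_one_eq (aleph0_le_aleph 1)]
      rw [mk_prod, mk_prod]
      simp only [lift_id, lift_uzero, mk_nat, lift_aleph0]
      rw [T.cardA]
      refine (mul_le_mul' le_rfl (mul_le_mul' (aleph0_le_aleph 1) hI)).trans ?_
      rw [mul_eq_self (aleph0_le_aleph 1), mul_eq_self (aleph0_le_aleph 1)]
    obtain ⟨k, hk⟩ := bdd_of_card T _ hcard
    exact ⟨k, fun δ hδ h => hk δ ⟨hδ, h⟩⟩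
  choose K hK using hK
  obtain ⟨b, hb⟩ := exists_seq T K
  have hub : {c : B | ∀ ζ, b ζ < c}.Nonempty := by
    obtain ⟨c, hc⟩ := bdd_of_card T (range b) (mk_range_le.trans T.cardA.le)
    exact ⟨c, fun ζ => hc _ ⟨ζ, rfl⟩⟩
  obtain ⟨δ, hδ⟩ : ∃ δ, δ = T.wfB.wf.min _ hub := ⟨_, rfl⟩
  have h1 : ∀ ζ, b ζ < δ := by
    rw [hδ]
    exact T.wfB.wf.min_mem _ hub
  have h2 : ∀ y < δ, ∃ ζ, y ≤ b ζ := by
    intro y hy
    by_contra hcon
    push Not at hcon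
    rw [hδ] at hy
    exact T.wfB.wf.not_lt_min _ (show y ∈ {c : B | ∀ ζ, b ζ < c} from hcon) hy
  have hS : δ ∈ SS B := by
    intro c hc hcδ
    have : ∀ y : B, ∃ ζ, y ∈ c → y ≤ b ζ := by
      intro y
      by_cases hy : y ∈ c
      · obtain ⟨ζ, hζ⟩ := h2 y (hcδ y hy)
        exact ⟨ζ, fun _ => hζ⟩
      · obtain ⟨a, -⟩ := ctbl_bdd T ∅ countable_empty
        exact ⟨a, fun h => absurd h hy⟩
    choose z hz using this
    obtain ⟨ζ, hζ⟩ := ctbl_bdd T (z '' c) (hc.image z)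
    refine ⟨b ζ, h1 ζ, ?_⟩
    intro y hy
    exact (hz y hy).trans (hb _ _ (hζ _ ⟨y, hy, rfl⟩)).1.le
  obtain ⟨ζ, hζ⟩ := h2 _ (hlt δ hS)
  have h3 := hK (b ζ) δ hS hζ
  obtain ⟨ζ', hζ'⟩ := ctbl_bdd T {ζ} (countable_singleton ζ)
  have h4 := (hb ζ ζ' (hζ' ζ rfl)).2
  exact absurd (h3.trans h4) (not_lt.2 (h1 ζ').le)

end FAP
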