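import Pool.Agent.Helper94.FAP.Base
import Pool.Agent.Helper94.FAP.Elem
import Pool.Agent.Helper94.FAP.F8
import Pool.Agent.Helper94.FAP.F7
import Pool.Agent.Helper94.FAP.F15
import Pool.Agent.Helper94.FAP.F16d

open Set Cardinal

universe u v

namespace FAP

variable {A B : Type u} [LinearOrder A] [LinearOrder B]

theorem fa_outcome (hFA : FA.{u, v}) (T : Setup A B) (Act : B → A → Prop) (bit : B → Bool)
    (hAct : ActOK T Act) :
    ∃ (g : A → A) (h : B → A → Bool) (E : B → Set A), (∀ δ ∈ SS B, ClubA (E δ)) ∧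
      ∀ δ ∈ SS B, ∀ η ∈ E δ, T.f δ η < g η ∧ (Act δ η → h (T.x δ η) η = bit δ) :=
  fa_outcome_of_proper hFA T Act bit (pos_clubProper T Act bit hAct).isProper

theorem actOK_n (T : Setup A B) (g : A → A) (E : B → Set A) (hE : ∀ δ ∈ SS B, ClubA (E δ))
    (hg : ∀ δ ∈ SS B, ∀ η ∈ E δ, T.f δ η < g η) (pi : A → A → ℕ)
    (hpi : ∀ η a b, a < g η → b < g η → pi η a = pi η b → a = b) (n : ℕ) :
    ActOK T (fun δ η => δ ∈ SS B ∧ η ∈ E δ ∧ pi η (T.f δ η) ≤ n) := by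
  refine ⟨E, hE, ?_⟩
  intro η M hM hη
  refine Set.Finite.of_finite_image (f := fun δ => pi η (T.f δ η)) ?_ ?_
  · refine (Set.finite_Iic n).subset ?_
    rintro _ ⟨δ, ⟨-, -, -, -, h⟩, rfl⟩
    exact h
  · intro δ hδ δ' hδ' heq
    have h1 := hg δ hδ.2.1 η (hη δ hδ.1 hδ.2.1)
    have h2 := hg δ' hδ'.2.1 η (hη δ' hδ'.1 hδ'.2.1)
    have h3 : T.f δ η = T.f δ' η := hpi η _ _ h1 h2 heq
    rcases lt_trichotomy δ δ' with h | h | h
    · exact absurd h3 (f_lt_f T hM hδ.1 hδ'.1 h).ne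
    · exact h
    · exact absurd h3 (f_lt_f T hM hδ'.1 hδ.1 h).ne'

theorem exists_pi (T : Setup A B) (g : A → A) :
    ∃ pi : A → A → ℕ, ∀ η a b, a < g η → b < g η → pi η a = pi η b → a = b := by
  have h : ∀ η : A, ∃ p : A → ℕ, ∀ a b, a < g η → b < g η → p a = p b → a = b := by
    intro η
    obtain ⟨p, hp⟩ := Set.countable_iff_exists_injOn.1 (T.ctA (g η))
    exact ⟨p, fun a b ha hb hab => hp ha hb hab⟩
  choose pi hpi using h
  exact ⟨pi, hpi⟩

/-- The forcing axiom for aleph-2 dense sets and proper aleph-2-c.c. posets fails. -/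
theorem not_FA : ¬ FA.{u, v} := by
  classical
  intro hFA
  obtain ⟨A, B, iA, iB, ⟨T⟩⟩ := exists_setup.{u}
  obtain ⟨r, hr⟩ := reals_of_FA hFA T.cardB
  have hAct0 : ActOK T (fun _ _ => False) :=
    ⟨fun _ => univ, fun _ _ => ⟨fun a => by
      obtain ⟨b, hb⟩ := ctbl_bdd T {a} (countable_singleton a)
      exact ⟨b, mem_univ _, hb a rfl⟩, fun _ _ _ => mem_univ _⟩, by
      intro η M _ _
      simp⟩
  obtain ⟨g, _h0, E, hE, hg⟩ := fa_outcome hFA T (fun _ _ => False) (fun _ => false) hAct0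
  have hg' : ∀ δ ∈ SS B, ∀ η ∈ E δ, T.f δ η < g η := fun δ hδ η hη => (hg δ hδ η hη).1
  obtain ⟨pi, hpi⟩ := exists_pi T g
  choose gn hn En hEn hout using fun n : ℕ => fa_outcome hFA T
    (fun δ η => δ ∈ SS B ∧ η ∈ E δ ∧ pi η (T.f δ η) ≤ n) (fun δ => r δ n)
    (actOK_n T g E hE hg' pi hpi n)
  have hη : ∀ δ, ∃ η, δ ∈ SS B → η ∈ E δ ∧ ∀ n, η ∈ En n δ := by
    intro δ
    by_cases hδ : δ ∈ SS B
    · obtain ⟨η, h⟩ := clubA_inter T (fun n => Nat.casesOn n (E δ) (fun k => En k δ)) (by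
        intro n
        cases n with
        | zero => exact hE δ hδ
        | succ k => exact hEn k δ hδ)
      exact ⟨η, fun _ => ⟨h 0, fun n => h (n + 1)⟩⟩
    · obtain ⟨η, -⟩ := ctbl_bdd T ∅ countable_empty
      exact ⟨η, fun h => absurd h hδ⟩
  choose et het using hη
  refine no_injection T (fun δ => (et δ, pi (et δ) (T.f δ (et δ)), T.x δ (et δ))) ?_ ?_
  · intro δ hδ δ' hδ' heq
    simp only [Prod.mk.injEq] at heq
    obtain ⟨e1, e2, e3⟩ := heq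
    by_contra hne
    obtain ⟨m, hm, hmr⟩ := hr δ δ' hne (pi (et δ) (T.f δ (et δ)))
    apply hmr
    have h1 := (hout m δ hδ (et δ) ((het δ hδ).2 m)).2 ⟨hδ, (het δ hδ).1, hm⟩
    have h2 := (hout m δ' hδ' (et δ') ((het δ' hδ').2 m)).2
      ⟨hδ', (het δ' hδ').1, e2 ▸ hm⟩
    rw [← h1, ← h2, e3, e1]
  · intro δ hδ
    exact T.x_lt δ hδ _

end FAP
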